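import Pool.Agent.H642R3.Q.Halved

set_option autoImplicit false

namespace Pool.Agent.H642R3.QS

open Finset Pool.Agent.H642R3.Q

/-- comparison of a sum over queens with a sum over the lines they should occupy -/
lemma transfer {ι : Type} (D : Finset ι) (g : ι → ℤ) (I M : Finset ℤ)
    (hI : ∀ w ∈ I, w ∈ M ∨ ∃ q ∈ D, g q = w) (f : ℤ → ℚ) (B : ℚ) (hB : 0 ≤ B)
    (hf : ∀ w ∈ I, |f w| ≤ B) (hg : ∀ q ∈ D, |f (g q)| ≤ B) :
    |∑ q ∈ D, f (g q) - ∑ w ∈ I, f w| ≤ B * ((D.card : ℚ) - I.card + 2 * M.card) := by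
  classical
  have hch : ∀ w : ℤ, ∃ q : Option ι, w ∈ I \ M → ∃ q' ∈ D, q = some q' ∧ g q' = w := by
    intro w
    by_cases h : w ∈ I \ M
    · rw [mem_sdiff] at h
      rcases hI w h.1 with h1 | ⟨q, hq, hgq⟩
      · exact absurd h1 h.2
      · exact ⟨some q, fun _ => ⟨q, hq, rfl, hgq⟩⟩
    · exact ⟨none, fun h' => absurd h' h⟩
  choose s hs using hch
  set D1 : Finset ι := D.filter (fun q => ∃ w ∈ I \ M, s w = some q) with hD1
  have hsub : D1 ⊆ D := filter_subset _ _
  have hinj : Set.InjOn g D1 := by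
    intro a ha b hb hab
    have ha' := (mem_filter.1 (Finset.mem_coe.1 ha)).2
    have hb' := (mem_filter.1 (Finset.mem_coe.1 hb)).2
    obtain ⟨w, hw, hsw⟩ := ha'
    obtain ⟨w', hw', hsw'⟩ := hb'
    obtain ⟨q, -, e1, e2⟩ := hs w hw
    obtain ⟨q', -, e1', e2'⟩ := hs w' hw'
    have h1 : q = a := by rw [hsw] at e1; exact (Option.some.inj e1).symm
    have h2 : q' = b := by rw [hsw'] at e1'; exact (Option.some.inj e1').symm
    subst h1 h2
    have : w = w' := by rw [← e2, ← e2', hab]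
    subst this
    rw [e1] at e1'
    exact Option.some.inj e1'
  have himg : D1.image g = I \ M := by
    ext w
    constructor
    · intro h
      obtain ⟨q, hq, rfl⟩ := mem_image.1 h
      obtain ⟨w, hw, hsw⟩ := (mem_filter.1 hq).2
      obtain ⟨q', -, e1, e2⟩ := hs w hw
      have : q' = q := by rw [hsw] at e1; exact (Option.some.inj e1).symm
      subst this
      rw [e2]; exact hw
    · intro h
      obtain ⟨q, hq, e1, e2⟩ := hs w h
      exact mem_image.2 ⟨q, mem_filter.2 ⟨hq, w, h, e1⟩, e2⟩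
  have hcard : D1.card = (I \ M).card := by rw [← himg, card_image_of_injOn hinj]
  have hsum : ∑ q ∈ D1, f (g q) = ∑ w ∈ I \ M, f w := by rw [← himg, sum_image hinj]
  have h1 : ∑ q ∈ D, f (g q) = ∑ q ∈ D \ D1, f (g q) + ∑ q ∈ D1, f (g q) := (sum_sdiff hsub).symm
  have h2 : ∑ w ∈ I, f w = ∑ w ∈ I \ M, f w + ∑ w ∈ I ∩ M, f w := by
    rw [add_comm]; exact (sum_inter_add_sum_sdiff I M f).symm
  have h3 : |∑ q ∈ D \ D1, f (g q)| ≤ B * ((D \ D1).card : ℚ) := by
    refine (abs_sum_le_sum_abs _ _).trans ?_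
    have := sum_le_card_nsmul (D \ D1) (fun q => |f (g q)|) B (fun q hq => hg q (mem_sdiff.1 hq).1)
    rw [nsmul_eq_mul] at this
    linarith
  have h4 : |∑ w ∈ I ∩ M, f w| ≤ B * ((I ∩ M).card : ℚ) := by
    refine (abs_sum_le_sum_abs _ _).trans ?_
    have := sum_le_card_nsmul (I ∩ M) (fun q => |f q|) B (fun q hq => hf q (mem_inter.1 hq).1)
    rw [nsmul_eq_mul] at this
    linarith
  have c1 : ((D \ D1).card : ℚ) = D.card - (I \ M).card := by
    have := card_sdiff_add_card_eq_card hsub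
    rw [hcard] at this
    have h : (((D \ D1).card + (I \ M).card : ℕ) : ℚ) = (D.card : ℚ) := by rw [this]
    push_cast at h
    linarith
  have c2 : ((I \ M).card : ℚ) = I.card - (I ∩ M).card := by
    have := card_sdiff_add_card_inter I M
    have h : (((I \ M).card + (I ∩ M).card : ℕ) : ℚ) = (I.card : ℚ) := by rw [this]
    push_cast at h
    linarith
  have c3 : ((I ∩ M).card : ℚ) ≤ M.card := by exact_mod_cast card_le_card inter_subset_right
  rw [h1, h2, hsum]
  have e : ∑ q ∈ D \ D1, f (g q) + ∑ w ∈ I \ M, f w - (∑ w ∈ I \ M, f w + ∑ w ∈ I ∩ M, f w)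
      = ∑ q ∈ D \ D1, f (g q) - ∑ w ∈ I ∩ M, f w := by ring
  rw [e]
  refine (abs_sub _ _).trans ?_
  rw [c1, c2] at h3
  have := mul_le_mul_of_nonneg_left c3 hB
  nlinarith

/-- the structure of the difference and sum sets, with exceptions -/
lemma structR {k e : ℕ} {US VS ZX ZY : Finset ℤ} (hU : US.card ≤ 2 * k + 1 + 2 * e)
    (hV : VS.card ≤ 2 * k + 1 + 2 * e) (hZX : ZX.card ≤ e) (hZY : ZY.card ≤ e)
    (hcov : ∀ u v : ℤ, Odd (u + v) → |u| + |v| ≤ 2 * k + 1 → (v - u - 1) / 2 ∉ ZX →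
      (u + v - 1) / 2 ∉ ZY → u ∈ US ∨ v ∈ VS) :
    ∃ A B : ℕ, 1 ≤ A ∧ A + B = k + 1 ∧ ∃ MU MV : Finset ℤ, MU.card ≤ 6 * e + 1 ∧ MV.card ≤ 6 * e + 2 ∧
      (∀ w ∈ TT A B, w ∈ MU ∨ w ∈ US) ∧ (∀ w ∈ TT A B, w ∈ MV ∨ w ∈ VS) := by
  classical
  obtain ⟨A, B, hT, ⟨u, hu, huS⟩, ⟨u', hu', huS'⟩⟩ := exists_AB US
  have pu : u % 2 = 0 := by rcases abs_eq (by positivity) |>.1 hu with h | h <;> omega
  have pu' : u' % 2 = 1 := by rcases abs_eq (by positivity) |>.1 hu' with h | h <;> omega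
  set Z1 : Finset ℤ := ZX.image (fun i => 2 * i + 1 + u) ∪ ZY.image (fun j => 2 * j + 1 - u) with hZ1
  set Z2 : Finset ℤ := ZX.image (fun i => 2 * i + 1 + u') ∪ ZY.image (fun j => 2 * j + 1 - u') with hZ2
  have cZ1 : Z1.card ≤ 2 * e := by
    refine (card_union_le _ _).trans ?_
    have h1 : (ZX.image (fun i => 2 * i + 1 + u)).card ≤ ZX.card := card_image_le
    have h2 : (ZY.image (fun j => 2 * j + 1 - u)).card ≤ ZY.card := card_image_le
    omega
  have cZ2 : Z2.card ≤ 2 * e := by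
    refine (card_union_le _ _).trans ?_
    have h1 : (ZX.image (fun i => 2 * i + 1 + u')).card ≤ ZX.card := card_image_le
    have h2 : (ZY.image (fun j => 2 * j + 1 - u')).card ≤ ZY.card := card_image_le
    omega
  -- odd members of the sum set
  have hVo : ∀ v : ℤ, v % 2 = 1 → |v| + 2 * A ≤ 2 * k + 1 → v ∈ VS ∪ (Z1 ∪ Z2) := by
    intro v hv hle
    by_contra hcon
    rw [mem_union, mem_union] at hcon
    push Not at hcon
    rcases hcov u v (by rw [Int.odd_iff]; omega) (by rw [hu]; linarith) (by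
      intro h
      apply hcon.2.1
      rw [hZ1, mem_union]
      left
      exact mem_image.2 ⟨_, h, by omega⟩) (by
      intro h
      apply hcon.2.1
      rw [hZ1, mem_union]
      right
      exact mem_image.2 ⟨_, h, by omega⟩) with h | h
    · exact huS h
    · exact hcon.1 h
  have hVe : ∀ v : ℤ, v % 2 = 0 → |v| + (2 * B + 1) ≤ 2 * k + 1 → v ∈ VS ∪ (Z1 ∪ Z2) := by
    intro v hv hle
    by_contra hcon
    rw [mem_union, mem_union] at hcon
    push Not at hcon
    rcases hcov u' v (by rw [Int.odd_iff]; omega) (by rw [hu']; linarith) (by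
      intro h
      apply hcon.2.2
      rw [hZ2, mem_union]
      left
      exact mem_image.2 ⟨_, h, by omega⟩) (by
      intro h
      apply hcon.2.2
      rw [hZ2, mem_union]
      right
      exact mem_image.2 ⟨_, h, by omega⟩) with h | h
    · exact huS' h
    · exact hcon.1 h
  have hTV : TT (k + 1 - B) (k + 1 - A) ⊆ VS ∪ (Z1 ∪ Z2) := by
    intro x hx
    unfold TT at hx
    rw [mem_union, mem_image, mem_image] at hx
    rcases hx with ⟨i, hi, rfl⟩ | ⟨i, hi, rfl⟩
    · rw [mem_Ioo] at hi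
      apply hVe _ (by omega)
      rcases abs_cases (2 * i) with ⟨h, _⟩ | ⟨h, _⟩ <;> rw [h] <;> omega
    · rw [mem_Ico] at hi
      apply hVo _ (by omega)
      rcases abs_cases (2 * i + 1) with ⟨h, _⟩ | ⟨h, _⟩ <;> rw [h] <;> omega
  have c1 := card_le_card hT
  have c2 := (card_le_card hTV).trans (card_union_le _ _)
  have c3 := card_union_le Z1 Z2
  rw [TT_card] at c1 c2
  have cIoc : ∀ a b : ℤ, (Ioc a b).card = (b - a).toNat := fun a b => Int.card_Ioc a b
  have cIco : ∀ a b : ℤ, (Ico a b).card = (b - a).toNat := fun a b => Int.card_Ico a b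
  -- sandwich
  have s1 : A + B ≤ k + 1 + e := by omega
  have s2 : k + 1 ≤ A + B + 3 * e := by omega
  set A1 : ℕ := max 1 (min A (k + 1)) with hA1
  set B1 : ℕ := k + 1 - A1 with hB1
  have hA1a : 1 ≤ A1 := le_max_left _ _
  have hA1k : A1 ≤ k + 1 := by omega
  have hBB : B1 ≤ B + 3 * e := by omega
  have hAA : A1 ≤ (k + 1 - B) + (e + 1) := by omega
  have hBB2 : B1 ≤ k + 1 - A := by omega
  set MU : Finset ℤ := insert 0 ((Ico (-(B1 : ℤ)) (-(B : ℤ)) ∪ Ico (B : ℤ) B1).image (fun i => 2 * i + 1)) with hMU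
  set MV : Finset ℤ := (Z1 ∪ Z2) ∪ ((Ioc (-(A1 : ℤ)) (-((k + 1 - B : ℕ) : ℤ)) ∪ Ico ((k + 1 - B : ℕ) : ℤ) A1).image
    (fun i => 2 * i)) with hMV
  refine ⟨A1, B1, hA1a, by omega, MU, MV, ?_, ?_, ?_, ?_⟩
  · have h1 : ((Ico (-(B1 : ℤ)) (-(B : ℤ)) ∪ Ico (B : ℤ) B1).image (fun i => 2 * i + 1)).card ≤
        (Ico (-(B1 : ℤ)) (-(B : ℤ)) ∪ Ico (B : ℤ) B1).card := card_image_le
    have h2 := card_union_le (Ico (-(B1 : ℤ)) (-(B : ℤ))) (Ico (B : ℤ) B1)
    rw [cIco, cIco] at h2
    refine (card_insert_le _ _).trans ?_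
    omega
  · have h1 : ((Ioc (-(A1 : ℤ)) (-((k + 1 - B : ℕ) : ℤ)) ∪ Ico ((k + 1 - B : ℕ) : ℤ) A1).image (fun i => 2 * i)).card ≤
        (Ioc (-(A1 : ℤ)) (-((k + 1 - B : ℕ) : ℤ)) ∪ Ico ((k + 1 - B : ℕ) : ℤ) A1).card := card_image_le
    have h2 := card_union_le (Ioc (-(A1 : ℤ)) (-((k + 1 - B : ℕ) : ℤ))) (Ico ((k + 1 - B : ℕ) : ℤ) A1)
    rw [cIoc, cIco] at h2
    refine (card_union_le _ _).trans ?_
    omega
  · intro w hw
    unfold TT at hw
    rw [mem_union, mem_image, mem_image] at hw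
    rcases hw with ⟨i, hi, rfl⟩ | ⟨i, hi, rfl⟩
    · rw [mem_Ioo] at hi
      by_cases h0 : i = 0
      · left; rw [hMU, h0]; simp
      · right
        apply hT
        unfold TT
        rw [mem_union, mem_image]
        left
        exact ⟨i, by rw [mem_Ioo]; omega, rfl⟩
    · rw [mem_Ico] at hi
      by_cases h0 : -(B : ℤ) ≤ i ∧ i < B
      · right
        apply hT
        unfold TT
        rw [mem_union, mem_image, mem_image]
        right
        exact ⟨i, by rw [mem_Ico]; omega, rfl⟩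
      · left
        rw [hMU, mem_insert, mem_image]
        right
        exact ⟨i, by rw [mem_union, mem_Ico, mem_Ico]; omega, rfl⟩
  · intro w hw
    unfold TT at hw
    rw [mem_union, mem_image, mem_image] at hw
    rcases hw with ⟨i, hi, rfl⟩ | ⟨i, hi, rfl⟩
    · rw [mem_Ioo] at hi
      by_cases h0 : -((k + 1 - B : ℕ) : ℤ) < i ∧ i < ((k + 1 - B : ℕ) : ℤ)
      · have := hTV (show 2 * i ∈ TT (k + 1 - B) (k + 1 - A) by
          unfold TT
          rw [mem_union, mem_image]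
          left
          exact ⟨i, by rw [mem_Ioo]; omega, rfl⟩)
        rw [mem_union] at this
        rcases this with h | h
        · right; exact h
        · left; rw [hMV, mem_union]; left; exact h
      · left
        rw [hMV, mem_union, mem_image]
        right
        exact ⟨i, by rw [mem_union, mem_Ioc, mem_Ico]; omega, rfl⟩
    · rw [mem_Ico] at hi
      have := hTV (show 2 * i + 1 ∈ TT (k + 1 - B) (k + 1 - A) by
        unfold TT
        rw [mem_union, mem_image, mem_image]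
        right
        exact ⟨i, by rw [mem_Ico]; omega, rfl⟩)
      rw [mem_union] at this
      rcases this with h | h
      · right; exact h
      · left; rw [hMV, mem_union]; left; exact h

end Pool.Agent.H642R3.QS
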