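import Pool.Agent.H642R3.QS.Main

set_option autoImplicit false

namespace Pool.Agent.H642R3.QS

open Finset

/-- occupied lines: a queen that is not in the class `(c,r)` -/
lemma col_occ {n k t : ℕ} {c r : ℤ} (hc0 : (2 * k + 1 : ℤ) ≤ c) (hc1 : c + (2 * k + 1) ≤ n - 1)
    (hr0 : (2 * k + 1 : ℤ) ≤ r) (hr1 : r + (2 * k + 1) ≤ n - 1) (S T : Finset (ℤ × ℤ))
    (hT : ∀ q ∈ S, q ∉ T → (q.1 - c) % 2 = 0 ∧ (q.2 - r) % 2 = 0) (ht : T.card ≤ t) (hkt : 3 * t < 2 * k + 2)
    (hdom : ∀ x y : ℤ, 0 ≤ x → x < n → 0 ≤ y → y < n →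
      ∃ q ∈ S, x = q.1 ∨ y = q.2 ∨ x + y = q.1 + q.2 ∨ x + q.2 = q.1 + y)
    (a : ℤ) (ha0 : -(k : ℤ) ≤ a) (ha1 : a ≤ k) : ∃ q ∈ S, q.1 = c + 2 * a := by
  classical
  by_contra hcon
  push Not at hcon
  set x : ℤ := c + 2 * a with hx
  have hsub : (Icc (-(k : ℤ) - 1) k).image (fun j => r + 2 * j + 1) ⊆
      T.image (fun q => q.2) ∪ (T.image (fun q => q.1 + q.2 - x) ∪ T.image (fun q => x + q.2 - q.1)) := by
    intro y hy
    obtain ⟨j, hj, rfl⟩ := mem_image.1 hy
    rw [mem_Icc] at hj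
    obtain ⟨q, hq, h⟩ := hdom x (r + 2 * j + 1) (by omega) (by omega) (by omega) (by omega)
    have hqT : q ∈ T := by
      by_contra hqT
      obtain ⟨p1, p2⟩ := hT q hq hqT
      rcases h with h | h | h | h
      · exact hcon q hq h.symm
      · omega
      · omega
      · omega
    rw [mem_union, mem_union, mem_image, mem_image, mem_image]
    rcases h with h | h | h | h
    · exact absurd h.symm (hcon q hq)
    · exact Or.inl ⟨q, hqT, h.symm⟩
    · exact Or.inr (Or.inl ⟨q, hqT, by omega⟩)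
    · exact Or.inr (Or.inr ⟨q, hqT, by omega⟩)
  have h1 := card_le_card hsub
  rw [card_image_of_injective _ (fun a b h => by have h2 : r + 2 * a + 1 = r + 2 * b + 1 := h; omega), Int.card_Icc] at h1
  have h2 := card_union_le (T.image (fun q => q.2)) (T.image (fun q => q.1 + q.2 - x) ∪ T.image (fun q => x + q.2 - q.1))
  have h3 := card_union_le (T.image (fun q => q.1 + q.2 - x)) (T.image (fun q => x + q.2 - q.1))
  have h4 : (T.image (fun q => q.2)).card ≤ T.card := card_image_le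
  have h5 : (T.image (fun q => q.1 + q.2 - x)).card ≤ T.card := card_image_le
  have h6 : (T.image (fun q => x + q.2 - q.1)).card ≤ T.card := card_image_le
  omega

/-- Dominating sets with few queens outside one parity class are large. -/
theorem board {n : ℕ} (hn : 100000000 ≤ n) (S : Finset (ℤ × ℤ))
    (hS : ∀ q ∈ S, 0 ≤ q.1 ∧ q.1 < n ∧ 0 ≤ q.2 ∧ q.2 < n)
    (hdom : ∀ x y : ℤ, 0 ≤ x → x < n → 0 ≤ y → y < n →
      ∃ q ∈ S, x = q.1 ∨ y = q.2 ∨ x + y = q.1 + q.2 ∨ x + q.2 = q.1 + y)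
    (α β : ℤ) (hα : α = 0 ∨ α = 1) (hβ : β = 0 ∨ β = 1)
    (ht : 10000000 * (S.filter (fun q => ¬ (q.1 % 2 = α ∧ q.2 % 2 = β))).card ≤ n) :
    10000002 * n < 20000000 * S.card := by
  classical
  by_contra hcon
  push Not at hcon
  set T : Finset (ℤ × ℤ) := S.filter (fun q => ¬ (q.1 % 2 = α ∧ q.2 % 2 = β)) with hTdef
  obtain ⟨k, hk⟩ : ∃ k : ℕ, k = n / 4 - 1 := ⟨_, rfl⟩
  obtain ⟨e, he⟩ : ∃ e : ℕ, e = n / 5000000 := ⟨_, rfl⟩
  have he1 : 1 ≤ e := by omega
  have hek : 1000000 * e ≤ k := by omega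
  set c : ℤ := 2 * k + 2 - α with hc
  set r : ℤ := 2 * k + 2 - β with hr
  have hc0 : (2 * k + 1 : ℤ) ≤ c := by omega
  have hc1 : c + (2 * k + 1) ≤ n - 1 := by omega
  have hr0 : (2 * k + 1 : ℤ) ≤ r := by omega
  have hr1 : r + (2 * k + 1) ≤ n - 1 := by omega
  have htT : T.card ≤ e := by omega
  have hTc : ∀ q ∈ S, q ∉ T → (q.1 - c) % 2 = 0 ∧ (q.2 - r) % 2 = 0 := by
    intro q hq hqT
    rw [hTdef, mem_filter] at hqT
    have : q.1 % 2 = α ∧ q.2 % 2 = β := by
      by_contra h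
      exact hqT ⟨hq, h⟩
    omega
  have hkt : 3 * e < 2 * k + 2 := by omega
  have hocc1 := col_occ (t := e) hc0 hc1 hr0 hr1 S T hTc htT hkt hdom
  have hocc2 : ∀ a : ℤ, -(k : ℤ) ≤ a → a ≤ k → ∃ q ∈ S, q.2 = r + 2 * a := by
    intro a h0 h1
    obtain ⟨q, hq, h⟩ := col_occ (t := e) (n := n) (k := k) (c := r) (r := c) hr0 hr1 hc0 hc1
      (S.image Prod.swap) (T.image Prod.swap) (by
        intro q hq hqT
        obtain ⟨p, hp, rfl⟩ := mem_image.1 hq
        have := hTc p hp (fun h => hqT (mem_image.2 ⟨p, h, rfl⟩))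
        exact ⟨this.2, this.1⟩) (card_image_le.trans htT) hkt (by
        intro x y h1 h2 h3 h4
        obtain ⟨q, hq, h⟩ := hdom y x h3 h4 h1 h2
        refine ⟨q.swap, mem_image.2 ⟨q, hq, rfl⟩, ?_⟩
        simp only [Prod.fst_swap, Prod.snd_swap]
        omega) a h0 h1
    obtain ⟨p, hp, rfl⟩ := mem_image.1 hq
    exact ⟨p, hp, h⟩
  set hv : ℤ × ℤ → ℤ × ℤ := fun q => ((q.1 - c) / 2, (q.2 - r) / 2) with hhv
  set D : Finset (ℤ × ℤ) := (S \ T).image hv with hD
  have hDm : ∀ q ∈ D, ∃ p ∈ S, p ∉ T ∧ p.1 = c + 2 * q.1 ∧ p.2 = r + 2 * q.2 := by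
    intro q hq
    obtain ⟨p, hp, rfl⟩ := mem_image.1 hq
    rw [mem_sdiff] at hp
    obtain ⟨h1, h2⟩ := hTc p hp.1 hp.2
    refine ⟨p, hp.1, hp.2, ?_, ?_⟩
    · simp only [hhv]; omega
    · simp only [hhv]; omega
  have hmD : ∀ p ∈ S, p ∉ T → hv p ∈ D := fun p hp hpT => mem_image.2 ⟨p, mem_sdiff.2 ⟨hp, hpT⟩, rfl⟩
  have hv1 : ∀ p ∈ S, p ∉ T → p.1 = c + 2 * (hv p).1 ∧ p.2 = r + 2 * (hv p).2 := by
    intro p hp hpT
    obtain ⟨h1, h2⟩ := hTc p hp hpT
    simp only [hhv]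
    constructor <;> omega
  have hDc : D.card ≤ S.card := card_image_le.trans (card_le_card sdiff_subset)
  refine robust (k := k) (e := e) he1 hek D (by omega)
    (T.image (fun q => (q.1 - c) / 2)) (T.image (fun q => (q.2 - r) / 2))
    (T.image (fun q => (q.1 - c - 1) / 2)) (T.image (fun q => (q.2 - r - 1) / 2))
    (T.image (fun q => (q.2 - q.1 - r + c) / 2)) (T.image (fun q => (q.1 + q.2 - c - r) / 2))
    (card_image_le.trans htT) (card_image_le.trans htT) (card_image_le.trans htT)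
    (card_image_le.trans htT) (card_image_le.trans htT) (card_image_le.trans htT) ?_ ?_ ?_ ?_ ?_
  · intro a ha
    rw [mem_Icc] at ha
    obtain ⟨q, hq, h⟩ := hocc1 a ha.1 ha.2
    by_cases hqT : q ∈ T
    · left
      exact mem_image.2 ⟨q, hqT, by omega⟩
    · right
      refine ⟨hv q, hmD q hq hqT, ?_⟩
      have := (hv1 q hq hqT).1
      omega
  · intro a ha
    rw [mem_Icc] at ha
    obtain ⟨q, hq, h⟩ := hocc2 a ha.1 ha.2
    by_cases hqT : q ∈ T
    · left
      exact mem_image.2 ⟨q, hqT, by omega⟩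
    · right
      refine ⟨hv q, hmD q hq hqT, ?_⟩
      have := (hv1 q hq hqT).2
      omega
  · intro q hq
    obtain ⟨p, hp, -, h1, h2⟩ := hDm q hq
    have := hS p hp
    rw [abs_le]
    constructor <;> omega
  · intro q hq
    obtain ⟨p, hp, -, h1, h2⟩ := hDm q hq
    have := hS p hp
    rw [abs_le]
    constructor <;> omega
  · intro u v huv hle hZX hZY
    rw [Int.odd_iff] at huv
    have b1 : |v - u| ≤ 2 * k + 1 := (abs_sub v u).trans (by rw [add_comm]; exact hle)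
    have b2 : |u + v| ≤ 2 * k + 1 := (abs_add_le u v).trans hle
    rw [abs_le] at b1 b2
    obtain ⟨q, hq, h⟩ := hdom (c + (v - u)) (r + (u + v)) (by omega) (by omega) (by omega) (by omega)
    by_cases hqT : q ∈ T
    · rcases h with h | h | h | h
      · exact absurd (mem_image.2 ⟨q, hqT, by omega⟩) hZX
      · exact absurd (mem_image.2 ⟨q, hqT, by omega⟩) hZY
      · right; left
        exact mem_image.2 ⟨q, hqT, by omega⟩
      · left; left
        exact mem_image.2 ⟨q, hqT, by omega⟩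
    · have e1 := hv1 q hq hqT
      have e2 := hmD q hq hqT
      rcases h with h | h | h | h
      · exfalso; omega
      · exfalso; omega
      · right; right
        exact ⟨hv q, e2, by omega⟩
      · left; right
        exact ⟨hv q, e2, by omega⟩

end Pool.Agent.H642R3.QS
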