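import Pool.Agent.H642R3.QS.Cols

set_option autoImplicit false

namespace Pool.Agent.H642R3.QS

open Finset

/-- Dominating sets with few queens in the rows of one parity. -/
theorem rows {n : ℕ} (hn : 1000000000 ≤ n) (S : Finset (ℤ × ℤ))
    (hS : ∀ q ∈ S, 0 ≤ q.1 ∧ q.1 < n ∧ 0 ≤ q.2 ∧ q.2 < n)
    (hdom : ∀ x y : ℤ, 0 ≤ x → x < n → 0 ≤ y → y < n →
      ∃ q ∈ S, x = q.1 ∨ y = q.2 ∨ x + y = q.1 + q.2 ∨ x + q.2 = q.1 + y)
    (α : ℤ) (hα : α = 0 ∨ α = 1)
    (ht : 100000000 * (S.filter (fun q => ¬ q.2 % 2 = α)).card ≤ n) :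
    100000002 * n < 200000000 * S.card := by
  classical
  have hinj : Function.Injective (Prod.swap : ℤ × ℤ → ℤ × ℤ) := Prod.swap_injective
  have h := cols hn (S.image Prod.swap) (by
    intro q hq
    obtain ⟨p, hp, rfl⟩ := mem_image.1 hq
    have := hS p hp
    simp only [Prod.fst_swap, Prod.snd_swap]
    omega) (by
    intro x y h1 h2 h3 h4
    obtain ⟨q, hq, h⟩ := hdom y x h3 h4 h1 h2
    refine ⟨q.swap, mem_image.2 ⟨q, hq, rfl⟩, ?_⟩
    simp only [Prod.fst_swap, Prod.snd_swap]
    omega) α hα (by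
    have e : ((S.image Prod.swap).filter (fun q => ¬ q.1 % 2 = α)) =
        (S.filter (fun q => ¬ q.2 % 2 = α)).image Prod.swap := by
      rw [filter_image]
      rfl
    rw [e, card_image_of_injective _ hinj]
    exact ht)
  rwa [card_image_of_injective _ hinj] at h

/-- Dominating sets with few queens on the squares of one colour. -/
theorem colour {n : ℕ} (hn : 1000000000 ≤ n) (S : Finset (ℤ × ℤ))
    (hS : ∀ q ∈ S, 0 ≤ q.1 ∧ q.1 < n ∧ 0 ≤ q.2 ∧ q.2 < n)
    (hdom : ∀ x y : ℤ, 0 ≤ x → x < n → 0 ≤ y → y < n →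
      ∃ q ∈ S, x = q.1 ∨ y = q.2 ∨ x + y = q.1 + q.2 ∨ x + q.2 = q.1 + y)
    (α : ℤ) (hα : α = 0 ∨ α = 1)
    (ht : 10000000000 * (S.filter (fun q => ¬ (q.1 + q.2) % 2 = α)).card ≤ n) :
    1000000002 * n < 2000000000 * S.card := by
  classical
  by_contra hcon
  push Not at hcon
  set T : Finset (ℤ × ℤ) := S.filter (fun q => ¬ (q.1 + q.2) % 2 = α) with hT
  set C : ℤ → Finset ℤ := fun ρ => (Ico (0 : ℤ) n).filter (fun y => y % 2 = ρ ∧ y ∉ S.image Prod.fst) with hC
  set R : ℤ → Finset ℤ := fun ρ => (Ico (0 : ℤ) n).filter (fun y => y % 2 = ρ ∧ y ∉ S.image Prod.snd) with hR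
  -- off-colour pairs of empty lines are covered by diagonals of `T`
  have pairs : ∀ ρ : ℤ, (ρ = 0 ∨ ρ = 1) →
      (C ρ).card * (R ((ρ + α + 1) % 2)).card ≤ T.card * (2 * n) := by
    intro ρ hρ
    have hsub : (C ρ) ×ˢ (R ((ρ + α + 1) % 2)) ⊆
        T.biUnion (fun q => ((Ico (0 : ℤ) n).image (fun x => (x, q.1 + q.2 - x))) ∪
          ((Ico (0 : ℤ) n).image (fun x => (x, x + q.2 - q.1)))) := by
      rintro ⟨x, y⟩ hxy
      rw [mem_product] at hxy
      simp only [hC, hR] at hxy
      rw [mem_filter, mem_filter, mem_Ico, mem_Ico] at hxy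
      obtain ⟨⟨⟨x0, x1⟩, x2, x3⟩, ⟨y0, y1⟩, y2, y3⟩ := hxy
      obtain ⟨q, hq, h⟩ := hdom x y x0 x1 y0 y1
      rw [mem_biUnion]
      rcases h with h | h | h | h
      · exact absurd (mem_image.2 ⟨q, hq, h.symm⟩) x3
      · exact absurd (mem_image.2 ⟨q, hq, h.symm⟩) y3
      · refine ⟨q, ?_, ?_⟩
        · rw [hT, mem_filter]
          exact ⟨hq, by omega⟩
        · rw [mem_union, mem_image]
          left
          exact ⟨x, by rw [mem_Ico]; exact ⟨x0, x1⟩, by rw [← h]; ext <;> simp⟩
      · refine ⟨q, ?_, ?_⟩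
        · rw [hT, mem_filter]
          exact ⟨hq, by omega⟩
        · rw [mem_union, mem_image, mem_image]
          right
          exact ⟨x, by rw [mem_Ico]; exact ⟨x0, x1⟩, by rw [h]; ext <;> simp⟩
    have h1 := card_le_card hsub
    rw [card_product] at h1
    refine h1.trans ?_
    refine card_biUnion_le_card_mul _ _ _ ?_
    intro q _
    refine (card_union_le _ _).trans ?_
    have a1 : ((Ico (0 : ℤ) n).image (fun x => (x, q.1 + q.2 - x))).card ≤ (Ico (0 : ℤ) n).card := card_image_le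
    have a2 : ((Ico (0 : ℤ) n).image (fun x => (x, x + q.2 - q.1))).card ≤ (Ico (0 : ℤ) n).card := card_image_le
    rw [Int.card_Ico] at a1 a2
    omega
  have tot : ∀ (p : ℤ × ℤ → ℤ), n ≤ ((Ico (0 : ℤ) n).filter (fun y => y % 2 = 0 ∧ y ∉ S.image p)).card +
      ((Ico (0 : ℤ) n).filter (fun y => y % 2 = 1 ∧ y ∉ S.image p)).card + S.card := by
    intro p
    have h1 : (Ico (0 : ℤ) n) ⊆ ((Ico (0 : ℤ) n).filter (fun y => y % 2 = 0 ∧ y ∉ S.image p)) ∪
        (((Ico (0 : ℤ) n).filter (fun y => y % 2 = 1 ∧ y ∉ S.image p)) ∪ S.image p) := by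
      intro y hy
      rw [mem_union, mem_union, mem_filter, mem_filter]
      by_cases h : y ∈ S.image p
      · right; right; exact h
      · have : y % 2 = 0 ∨ y % 2 = 1 := by omega
        rcases this with h2 | h2
        · left; exact ⟨hy, h2, h⟩
        · right; left; exact ⟨hy, h2, h⟩
    have h2 := (card_le_card h1).trans (card_union_le _ _)
    have h3 := card_union_le ((Ico (0 : ℤ) n).filter (fun y => y % 2 = 1 ∧ y ∉ S.image p)) (S.image p)
    have h4 : (S.image p).card ≤ S.card := card_image_le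
    rw [Int.card_Ico] at h2
    omega
  have totC : n ≤ (C 0).card + (C 1).card + S.card := tot Prod.fst
  have totR : n ≤ (R 0).card + (R 1).card + S.card := tot Prod.snd
  -- a small class from a large one
  have small : ∀ a b : ℕ, a * b ≤ T.card * (2 * n) → n ≤ 5 * a → b ≤ 10 * T.card := by
    intro a b h1 h2
    by_contra h3
    push Not at h3
    have h4 : 5 * (T.card * (2 * n)) < 5 * (a * b) := by
      have hn0 : 0 < n := by omega
      have ha : 0 < a := by omega
      calc 5 * (T.card * (2 * n)) = n * (10 * T.card) := by ring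
        _ < n * b := Nat.mul_lt_mul_of_pos_left h3 hn0
        _ ≤ 5 * a * b := Nat.mul_le_mul_right _ h2
        _ = 5 * (a * b) := by ring
    omega
  -- conclusion from a small class of empty columns
  have fin : ∀ ρ : ℤ, (ρ = 0 ∨ ρ = 1) → (C ρ).card ≤ 10 * T.card → False := by
    intro ρ hρ hc
    have h1 : ((Ico (0 : ℤ) n).filter (fun y => y % 2 = ρ)) ⊆
        (S.filter (fun q => q.1 % 2 = ρ)).image Prod.fst ∪ C ρ := by
      intro y hy
      rw [mem_filter] at hy
      rw [mem_union]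
      by_cases h : y ∈ S.image Prod.fst
      · left
        obtain ⟨q, hq, rfl⟩ := mem_image.1 h
        exact mem_image.2 ⟨q, mem_filter.2 ⟨hq, hy.2⟩, rfl⟩
      · right
        simp only [hC]
        rw [mem_filter]
        exact ⟨hy.1, hy.2, h⟩
    have h2 := (card_le_card h1).trans (card_union_le _ _)
    have h2' : ((S.filter (fun q => q.1 % 2 = ρ)).image Prod.fst).card ≤ (S.filter (fun q => q.1 % 2 = ρ)).card :=
      card_image_le
    have h3 := parity_board n ρ hρ
    have h4 := card_filter_add_card_filter_not (s := S) (fun q => q.1 % 2 = ρ)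
    have := cols hn S hS hdom ρ hρ (by omega)
    omega
  have p0 := pairs 0 (Or.inl rfl)
  have p1 := pairs 1 (Or.inr rfl)
  by_cases hbig : n ≤ 5 * (C 0).card
  · rcases hα with rfl | rfl
    · norm_num at p0 p1
      have s1 := small _ _ p0 hbig
      have s2 := small (R 0).card (C 1).card (by rw [mul_comm]; exact p1) (by omega)
      exact fin 1 (Or.inr rfl) s2
    · norm_num at p0 p1
      have s1 := small _ _ p0 hbig
      have s2 := small (R 1).card (C 1).card (by rw [mul_comm]; exact p1) (by omega)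
      exact fin 1 (Or.inr rfl) s2
  · rcases hα with rfl | rfl
    · norm_num at p0 p1
      have s1 := small _ _ p1 (by omega)
      have s2 := small (R 1).card (C 0).card (by rw [mul_comm]; exact p0) (by omega)
      exact fin 0 (Or.inl rfl) s2
    · norm_num at p0 p1
      have s1 := small _ _ p1 (by omega)
      have s2 := small (R 0).card (C 0).card (by rw [mul_comm]; exact p0) (by omega)
      exact fin 0 (Or.inl rfl) s2

end Pool.Agent.H642R3.QS
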