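import Pool.Agent.H642R3.QS.Rows

set_option autoImplicit false

namespace Pool.Agent.H642R3.QS

open Finset

/-- the empty lines of one family -/
lemma gap_rows (R : Finset ℤ) (m : ℕ) (hm : 1 ≤ m) (hR : 2 * m + 1 ≤ R.card) :
    ∃ y1 ∈ R, ∃ y3 ∈ R, ∃ y2 ∈ R, y1 + m ≤ y3 ∧ y3 + m ≤ y2 := by
  classical
  have hne : R.Nonempty := by rw [← card_pos]; omega
  by_contra hcon
  push Not at hcon
  have hsub : R ⊆ Ico (R.min' hne) (R.min' hne + m) ∪ Ioc (R.max' hne - m) (R.max' hne) := by
    intro y hy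
    have h1 := min'_le R y hy
    have h2 := le_max' R y hy
    have h3 := hcon _ (min'_mem R hne) y hy _ (max'_mem R hne)
    rw [mem_union, mem_Ico, mem_Ioc]
    by_cases h : R.min' hne + m ≤ y
    · right
      have := h3 h
      exact ⟨by linarith, h2⟩
    · left
      exact ⟨h1, by linarith⟩
  have h1 := (card_le_card hsub).trans (card_union_le _ _)
  rw [Int.card_Ico, Int.card_Ioc] at h1
  omega

/-- number of integers of given parity on the board -/
lemma parity_board (n : ℕ) (α : ℤ) (hα : α = 0 ∨ α = 1) :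
    n ≤ 2 * ((Ico (0 : ℤ) n).filter (fun x => x % 2 = α)).card + 1 := by
  have := parity_card 0 n α hα
  rwa [zero_add] at this

/-- Dominating sets with few queens in the columns of one parity. -/
theorem cols {n : ℕ} (hn : 1000000000 ≤ n) (S : Finset (ℤ × ℤ))
    (hS : ∀ q ∈ S, 0 ≤ q.1 ∧ q.1 < n ∧ 0 ≤ q.2 ∧ q.2 < n)
    (hdom : ∀ x y : ℤ, 0 ≤ x → x < n → 0 ≤ y → y < n →
      ∃ q ∈ S, x = q.1 ∨ y = q.2 ∨ x + y = q.1 + q.2 ∨ x + q.2 = q.1 + y)
    (α : ℤ) (hα : α = 0 ∨ α = 1)
    (ht : 100000000 * (S.filter (fun q => ¬ q.1 % 2 = α)).card ≤ n) :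
    100000002 * n < 200000000 * S.card := by
  classical
  by_contra hcon
  push Not at hcon
  set T : Finset (ℤ × ℤ) := S.filter (fun q => ¬ q.1 % 2 = α) with hT
  set X : Finset ℤ := ((Ico (0 : ℤ) n).filter (fun x => x % 2 = 1 - α)) \ T.image Prod.fst with hX
  have hXm : ∀ x ∈ X, (0 ≤ x ∧ x < n) ∧ x % 2 = 1 - α ∧ ∀ q ∈ S, q.1 ≠ x := by
    intro x hx
    rw [hX, mem_sdiff, mem_filter, mem_Ico] at hx
    refine ⟨hx.1.1, hx.1.2, ?_⟩
    rintro q hq rfl
    apply hx.2
    refine mem_image.2 ⟨q, ?_, rfl⟩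
    rw [hT, mem_filter]
    exact ⟨hq, by omega⟩
  have hXc : n ≤ 2 * X.card + 2 * T.card + 1 := by
    have h1 := parity_board n (1 - α) (by omega)
    have h2 : ((Ico (0 : ℤ) n).filter (fun x => x % 2 = 1 - α)).card ≤ X.card + T.card := by
      have := le_card_sdiff (T.image Prod.fst) ((Ico (0 : ℤ) n).filter (fun x => x % 2 = 1 - α))
      have h3 : (T.image Prod.fst).card ≤ T.card := card_image_le
      rw [← hX] at this
      omega
    omega
  -- empty rows
  set R : ℤ → Finset ℤ := fun ρ => (Ico (0 : ℤ) n).filter (fun y => y % 2 = ρ ∧ y ∉ S.image Prod.snd) with hR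
  have hRm : ∀ ρ y, y ∈ R ρ → (0 ≤ y ∧ y < n) ∧ y % 2 = ρ ∧ ∀ q ∈ S, q.2 ≠ y := by
    intro ρ y hy
    simp only [hR] at hy
    rw [mem_filter, mem_Ico] at hy
    refine ⟨hy.1, hy.2.1, ?_⟩
    rintro q hq rfl
    exact hy.2.2 (mem_image.2 ⟨q, hq, rfl⟩)
  -- diagonals
  set U : ℤ → Finset ℤ := fun π => (S.image (fun q => q.2 - q.1)).filter (fun w => w % 2 = π) with hU
  set V : ℤ → Finset ℤ := fun π => (S.image (fun q => q.1 + q.2)).filter (fun w => w % 2 = π) with hV
  have hUc : (U 0).card + (U 1).card ≤ S.card := by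
    have h1 : U 1 = (S.image (fun q => q.2 - q.1)).filter (fun w => ¬ w % 2 = 0) := by
      simp only [hU]
      apply filter_congr
      intro w _
      omega
    rw [h1]
    simp only [hU]
    rw [card_filter_add_card_filter_not]
    exact card_image_le
  have hVc : (V 0).card + (V 1).card ≤ S.card := by
    have h1 : V 1 = (S.image (fun q => q.1 + q.2)).filter (fun w => ¬ w % 2 = 0) := by
      simp only [hV]
      apply filter_congr
      intro w _
      omega
    rw [h1]
    simp only [hV]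
    rw [card_filter_add_card_filter_not]
    exact card_image_le
  have hcov : ∀ ρ y, y ∈ R ρ → ∀ x ∈ X, y - x ∈ U ((ρ + 1 - α) % 2) ∨ x + y ∈ V ((ρ + 1 - α) % 2) := by
    intro ρ y hy x hx
    obtain ⟨⟨y0, y1⟩, y2, y3⟩ := hRm ρ y hy
    obtain ⟨⟨x0, x1⟩, x2, x3⟩ := hXm x hx
    obtain ⟨q, hq, h⟩ := hdom x y x0 x1 y0 y1
    simp only [hU, hV]
    rw [mem_filter, mem_filter, mem_image, mem_image]
    rcases h with h | h | h | h
    · exact absurd h.symm (x3 q hq)
    · exact absurd h.symm (y3 q hq)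
    · right
      exact ⟨⟨q, hq, h.symm⟩, by omega⟩
    · left
      exact ⟨⟨q, hq, by linarith⟩, by omega⟩
  have hx0 : ∀ x ∈ X, 0 ≤ x := fun x hx => (hXm x hx).1.1
  -- a non-empty class of empty rows
  have one : ∀ ρ, (R ρ).Nonempty → X.card ≤ (U ((ρ + 1 - α) % 2)).card + (V ((ρ + 1 - α) % 2)).card := by
    rintro ρ ⟨y, hy⟩
    have h1 := row_count X _ _ y hx0 (hcov ρ y hy)
    have h2 : ((U ((ρ + 1 - α) % 2)).filter (fun w => w ≤ y)).card ≤ (U ((ρ + 1 - α) % 2)).card := card_filter_le _ _
    have h3 : ((V ((ρ + 1 - α) % 2)).filter (fun w => y ≤ w)).card ≤ (V ((ρ + 1 - α) % 2)).card := card_filter_le _ _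
    omega
  -- a large class of empty rows
  have two : ∀ ρ (m : ℕ), 1 ≤ m → 2 * m + 1 ≤ (R ρ).card →
      m + 4 * X.card ≤ 4 * (U ((ρ + 1 - α) % 2)).card + 4 * (V ((ρ + 1 - α) % 2)).card + 4 * T.card + 1 := by
    intro ρ m hm hRc
    obtain ⟨y1, h1, y3, h3, y2, h2, h13, h32⟩ := gap_rows (R ρ) m hm hRc
    have key := three_rows X _ _ y1 y3 y2 m h13 h32 hx0 (hcov ρ y1 h1) (hcov ρ y3 h3) (hcov ρ y2 h2)
    have b1 := hRm ρ y1 h1
    have b2 := hRm ρ y2 h2
    have b3 := hRm ρ y3 h3
    set p : ℤ := y3 - y1 with hp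
    have hY : ((Ico p (p + m)).filter (fun x => x % 2 = 1 - α)) ⊆
        X.filter (fun x => p ≤ x ∧ x < p + m ∧ x - p ∈ X) ∪
          (T.image Prod.fst ∪ T.image (fun q => q.1 + p)) := by
      intro x hx
      rw [mem_filter, mem_Ico] at hx
      obtain ⟨⟨hx1, hx2⟩, hx3⟩ := hx
      by_cases e1 : x ∈ T.image Prod.fst
      · exact mem_union_right _ (mem_union_left _ e1)
      · by_cases e2 : x - p ∈ T.image Prod.fst
        · apply mem_union_right _ (mem_union_right _ _)
          obtain ⟨q, hq, hqx⟩ := mem_image.1 e2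
          exact mem_image.2 ⟨q, hq, by linarith⟩
        · apply mem_union_left
          rw [mem_filter]
          refine ⟨?_, hx1, hx2, ?_⟩
          · rw [hX, mem_sdiff, mem_filter, mem_Ico]
            exact ⟨⟨⟨by omega, by omega⟩, hx3⟩, e1⟩
          · rw [hX, mem_sdiff, mem_filter, mem_Ico]
            exact ⟨⟨⟨by omega, by omega⟩, by omega⟩, e2⟩
    have c1 := (card_le_card hY).trans (card_union_le _ _)
    have c2 := card_union_le (T.image Prod.fst) (T.image (fun q => q.1 + p))
    have c3 : (T.image Prod.fst).card ≤ T.card := card_image_le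
    have c4 : (T.image (fun q => q.1 + p)).card ≤ T.card := card_image_le
    have c5 := parity_card p m (1 - α) (by omega)
    omega
  -- total number of empty rows
  have hRtot : n ≤ (R 0).card + (R 1).card + S.card := by
    have h1 : (Ico (0 : ℤ) n) ⊆ R 0 ∪ (R 1 ∪ S.image Prod.snd) := by
      intro y hy
      simp only [hR]
      rw [mem_union, mem_union, mem_filter, mem_filter]
      by_cases h : y ∈ S.image Prod.snd
      · right; right; exact h
      · have : y % 2 = 0 ∨ y % 2 = 1 := by omega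
        rcases this with h2 | h2
        · left; exact ⟨hy, h2, h⟩
        · right; left; exact ⟨hy, h2, h⟩
    have h2 := (card_le_card h1).trans (card_union_le _ _)
    have h3 := card_union_le (R 1) (S.image Prod.snd)
    have h4 : (S.image Prod.snd).card ≤ S.card := card_image_le
    rw [Int.card_Ico] at h2
    omega
  -- one class of rows has no empty member
  have hemp : R 0 = ∅ ∨ R 1 = ∅ := by
    by_contra hne
    push Not at hne
    have n0 : (R 0).Nonempty := hne.1
    have n1 : (R 1).Nonempty := hne.2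
    have o0 := one 0 n0
    have o1 := one 1 n1
    obtain ⟨m, hm⟩ : ∃ m : ℕ, m = n / 10 := ⟨_, rfl⟩
    rcases hα with rfl | rfl
    · norm_num at o0 o1
      by_cases hbig : 2 * m + 1 ≤ (R 0).card
      · have := two 0 m (by omega) hbig
        norm_num at this
        omega
      · have := two 1 m (by omega) (by omega)
        norm_num at this
        omega
    · norm_num at o0 o1
      by_cases hbig : 2 * m + 1 ≤ (R 0).card
      · have := two 0 m (by omega) hbig
        norm_num at this
        omega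
      · have := two 1 m (by omega) (by omega)
        norm_num at this
        omega
  have fin : ∀ ρ : ℤ, (ρ = 0 ∨ ρ = 1) → R ρ = ∅ → False := by
    intro ρ hρ hRe
    have h1 : ((Ico (0 : ℤ) n).filter (fun y => y % 2 = ρ)) ⊆ (S.filter (fun q => q.2 % 2 = ρ)).image Prod.snd := by
      intro y hy
      rw [mem_filter] at hy
      by_cases h : y ∈ S.image Prod.snd
      · obtain ⟨q, hq, rfl⟩ := mem_image.1 h
        exact mem_image.2 ⟨q, mem_filter.2 ⟨hq, hy.2⟩, rfl⟩
      · exfalso
        have : y ∈ R ρ := by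
          simp only [hR]
          rw [mem_filter]
          exact ⟨hy.1, hy.2, h⟩
        rw [hRe] at this
        exact absurd this (notMem_empty y)
    have h2 := (card_le_card h1).trans card_image_le
    have h3 := parity_board n ρ hρ
    have h4 := card_filter_add_card_filter_not (s := S) (fun q => q.2 % 2 = ρ)
    have h5 : (S.filter (fun q => ¬ (q.1 % 2 = α ∧ q.2 % 2 = ρ))).card ≤
        T.card + (S.filter (fun q => ¬ q.2 % 2 = ρ)).card := by
      refine le_trans (card_le_card ?_) (card_union_le _ _)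
      intro q hq
      rw [mem_filter] at hq
      rw [mem_union, hT, mem_filter, mem_filter]
      by_cases h : q.1 % 2 = α
      · right
        exact ⟨hq.1, fun h' => hq.2 ⟨h, h'⟩⟩
      · left
        exact ⟨hq.1, h⟩
    have := board (n := n) (by omega) S hS hdom α ρ hα hρ (by omega)
    omega
  rcases hemp with h | h
  · exact fin 0 (Or.inl rfl) h
  · exact fin 1 (Or.inr rfl) h

end Pool.Agent.H642R3.QS
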