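import Pool.Agent.H642R3.Q.Exist

set_option autoImplicit false

namespace Pool.Agent.H642R3.QS

open Finset Pool.Agent.H642R3.Q

/-- the final polynomial inequality with a cubic margin -/
lemma final_polyR {k l : ℚ} (hk : 1000000 ≤ k) (hl : 15773 / 10000 * k + 178865 / 100000 ≤ l) :
    4 * ((k + 1 / 2 - 3 / 11 * k) ^ 3 / 3
        + (3 / 11 * k - 1 / 8 * k) * (k + 1 / 2 - 3 / 11 * k) ^ 2 / 2) + k ^ 3 / 10000 <
      ((1 / 8 * k) * (3 / 11 * k) - (l / 2) ^ 2) * (l - 1)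
        + (2 * (l / 2) - (3 / 11 * k + 1 / 8 * k)) * (l - 1) ^ 2 / 2
        + ((l / 2 - 1 - 1 / 8 * k) ^ 3 / 3 - (3 / 11 * k - 1 / 8 * k) * (l / 2 - 1 - 1 / 8 * k) ^ 2 / 2)
        + ((l / 2 - 1 / 8 * k) ^ 3 / 3 - (3 / 11 * k - 1 / 8 * k) * (l / 2 - 1 / 8 * k) ^ 2 / 2)
        - (l - 1) / 3 - (2 * (l / 2) - (3 / 11 * k + 1 / 8 * k)) / 2 := by
  obtain ⟨t, rfl⟩ : ∃ t, k = t + 1000000 := ⟨k - 1000000, by ring⟩
  obtain ⟨s, rfl⟩ : ∃ s, l = 15773 / 10000 * (t + 1000000) + 178865 / 100000 + s :=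
    ⟨l - (15773 / 10000 * (t + 1000000) + 178865 / 100000), by ring⟩
  have ht : 0 ≤ t := by linarith
  have hs : 0 ≤ s := by linarith
  rw [← sub_pos]
  ring_nf
  positivity

/-- parameters for the certificate exist, larger class odd -/
lemma cert_oR (k n : ℕ) (hk : 1000000 ≤ k) (hnk : n ≤ k + 1)
    (hl : 15773 / 10000 * (k : ℚ) + 178865 / 100000 ≤ 2 * (n : ℚ) + 1) :
    ∃ d x1 w0 : ℚ, 0 ≤ d ∧ d ≤ x1 ∧ 0 < x1 ∧ 2 * x1 + d ≤ w0 ∧ x1 ≤ k ∧ w0 ≤ k + 2 ∧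
      4 * ∑ i ∈ Finset.range k, gq d x1 (i + 1) + (k : ℚ) ^ 3 / 10000 < SLo (psi d x1 w0) n := by
  have hk' : (1000000 : ℚ) ≤ k := by exact_mod_cast hk
  have hnk' : (n : ℚ) ≤ k + 1 := by exact_mod_cast hnk
  set K : ℚ := (k : ℚ) with hK
  refine ⟨1 / 8 * K, 1 / 8 * K + (3 / 11 * K - 1 / 8 * K), (2 * (n : ℚ) + 1) / 2, by linarith, by linarith, by linarith,
    by linarith, by linarith, by linarith, ?_⟩
  have hc : (2 : ℚ) / 3 ≤ 3 / 11 * K - 1 / 8 * K := by linarith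
  have hd : (1 : ℚ) ≤ 1 / 8 * K := by linarith
  have h1 := g_sum (d := 1 / 8 * K) (c := 3 / 11 * K - 1 / 8 * K) (by linarith) k
  have h2 := SLo_bound (d := 1 / 8 * K) (c := 3 / 11 * K - 1 / 8 * K) (w0 := (2 * (n : ℚ) + 1) / 2) n hd hc
  have h3 := final_polyR (k := K) (l := 2 * (n : ℚ) + 1) hk' hl
  refine lt_of_le_of_lt (add_le_add_left (mul_le_mul_of_nonneg_left h1 (by norm_num : (0:ℚ) ≤ 4)) _) (lt_of_lt_of_le ?_ h2)
  unfold Gf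
  rw [← hK, if_pos (by linarith)]
  unfold PP FF
  rw [Fo_zero (z := -(2 * (n : ℚ) - (2 * (n : ℚ) + 1) / 2)) (by linarith),
    Fo_zero (z := -((2 * (n : ℚ) + 1) / 2)) (by linarith),
    Fo_pos (z := (2 * (n : ℚ) - (2 * (n : ℚ) + 1) / 2)) (by linarith),
    Fo_pos (z := ((2 * (n : ℚ) + 1) / 2)) (by linarith)]
  have e1 : (2 * (n : ℚ) - (2 * (n : ℚ) + 1) / 2) - 1 / 8 * K = (2 * (n : ℚ) + 1) / 2 - 1 - 1 / 8 * K := by ring
  have e2 : K + 1 / 2 - (1 / 8 * K + (3 / 11 * K - 1 / 8 * K)) = K + 1 / 2 - 3 / 11 * K := by ring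
  rw [e1, e2]
  have hB : 0 ≤ (2 * ((2 * (n:ℚ) + 1) / 2) - (3 / 11 * K + 1 / 8 * K)) / 2 := by linarith
  refine lt_of_lt_of_le h3 ?_
  rw [← sub_nonneg] at hB ⊢
  refine le_trans hB (le_of_eq ?_)
  ring

/-- parameters for the certificate exist, larger class even -/
lemma cert_eR (k n : ℕ) (hk : 1000000 ≤ k) (hnk : n ≤ k)
    (hl : 15773 / 10000 * (k : ℚ) + 178865 / 100000 ≤ 2 * (n : ℚ) + 2) :
    ∃ d x1 w0 : ℚ, 0 ≤ d ∧ d ≤ x1 ∧ 0 < x1 ∧ 2 * x1 + d ≤ w0 ∧ x1 ≤ k ∧ w0 ≤ k + 2 ∧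
      4 * ∑ i ∈ Finset.range k, gq d x1 (i + 1) + (k : ℚ) ^ 3 / 10000 < SLe (psi d x1 w0) n := by
  have hk' : (1000000 : ℚ) ≤ k := by exact_mod_cast hk
  have hnk' : (n : ℚ) ≤ k := by exact_mod_cast hnk
  set K : ℚ := (k : ℚ) with hK
  refine ⟨1 / 8 * K, 1 / 8 * K + (3 / 11 * K - 1 / 8 * K), (2 * (n : ℚ) + 2) / 2, by linarith, by linarith, by linarith,
    by linarith, by linarith, by linarith, ?_⟩
  have hc : (2 : ℚ) / 3 ≤ 3 / 11 * K - 1 / 8 * K := by linarith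
  have hd : (1 : ℚ) ≤ 1 / 8 * K := by linarith
  have h1 := g_sum (d := 1 / 8 * K) (c := 3 / 11 * K - 1 / 8 * K) (by linarith) k
  have h2 := SLe_bound (d := 1 / 8 * K) (c := 3 / 11 * K - 1 / 8 * K) (w0 := (2 * (n : ℚ) + 2) / 2) n hd hc
    (by linarith)
  have h3 := final_polyR (k := K) (l := 2 * (n : ℚ) + 2) hk' hl
  refine lt_of_le_of_lt (add_le_add_left (mul_le_mul_of_nonneg_left h1 (by norm_num : (0:ℚ) ≤ 4)) _) (lt_of_lt_of_le ?_ h2)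
  unfold Gf
  rw [← hK, if_pos (by linarith)]
  unfold PP FF
  rw [Fo_zero (z := -(2 * (n : ℚ) + 1 - (2 * (n : ℚ) + 2) / 2)) (by linarith),
    Fo_zero (z := -((2 * (n : ℚ) + 2) / 2)) (by linarith),
    Fo_pos (z := (2 * (n : ℚ) + 1 - (2 * (n : ℚ) + 2) / 2)) (by linarith),
    Fo_pos (z := ((2 * (n : ℚ) + 2) / 2)) (by linarith)]
  have e1 : (2 * (n : ℚ) + 1 - (2 * (n : ℚ) + 2) / 2) - 1 / 8 * K = (2 * (n : ℚ) + 2) / 2 - 1 - 1 / 8 * K := by ring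
  have e2 : K + 1 / 2 - (1 / 8 * K + (3 / 11 * K - 1 / 8 * K)) = K + 1 / 2 - 3 / 11 * K := by ring
  rw [e1, e2]
  refine lt_of_lt_of_le h3 (le_of_eq ?_)
  ring

/-- size of the weights -/
lemma gq_bd {d x1 x R : ℚ} (h0 : 0 ≤ d) (h1 : d ≤ x1) (hx : 0 ≤ x) (hR : x ≤ R) :
    0 ≤ gq d x1 x ∧ gq d x1 x ≤ R ^ 2 := by
  unfold gq
  split_ifs with h
  · constructor
    · exact mul_nonneg (by linarith) (by linarith)
    · nlinarith [mul_nonneg (sub_nonneg.2 h) h0, mul_nonneg hx (h0.trans h1)]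
  · exact ⟨le_rfl, by positivity⟩

lemma psi_bd {d x1 w0 w R : ℚ} (h0 : 0 ≤ d) (h1 : d ≤ x1) (hB : 2 * x1 + d ≤ w0) (hw0 : w0 ≤ R)
    (hx1 : x1 ≤ R) (hw : 0 ≤ w) (hwR : w ≤ 2 * R) : |psi d x1 w0 w| ≤ 4 * R ^ 2 := by
  rw [abs_le]
  constructor
  · unfold psi eq0
    have h2 : 0 ≤ (2 * w0 - (x1 + d)) * w := mul_nonneg (by linarith) hw
    have h3 : 0 ≤ d * x1 := mul_nonneg h0 (h0.trans h1)
    have h4 : w0 ^ 2 ≤ R ^ 2 := pow_le_pow_left₀ (by linarith) hw0 2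
    have h5 : x1 ^ 2 ≤ R ^ 2 := pow_le_pow_left₀ (by linarith) hx1 2
    split_ifs with h
    · nlinarith [sq_nonneg (2 * |w - w0| - d - x1), mul_nonneg h0 (sub_nonneg.2 h1)]
    · nlinarith [sq_nonneg R]
  · refine (psi_le_A w h0 h1).trans ?_
    have h2 : w ^ 2 ≤ (2 * R) ^ 2 := pow_le_pow_left₀ hw hwR 2
    nlinarith [mul_nonneg (add_nonneg (h0.trans h1) h0) (sub_nonneg.2 hB), mul_nonneg (h0.trans h1) h0,
      sq_nonneg x1, sq_nonneg d]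

end Pool.Agent.H642R3.QS
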