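import Pool.Agent.H642R3.QS.Base
import Pool.Agent.H642R3.QS.Param

set_option autoImplicit false

namespace Pool.Agent.H642R3.QS

open Finset Pool.Agent.H642R3.Q

/-- A configuration in halved coordinates which satisfies the domination conditions up to `e` exceptions
of each kind does not exist, if `k` is at least `10^6 e`. -/
theorem robust {k e : ℕ} (he1 : 1 ≤ e) (he : 1000000 * e ≤ k) (D : Finset (ℤ × ℤ))
    (hcard : D.card ≤ 2 * k + 1 + e)
    (ZC ZR ZX ZY ZU ZV : Finset ℤ) (cC : ZC.card ≤ e) (cR : ZR.card ≤ e) (cX : ZX.card ≤ e)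
    (cY : ZY.card ≤ e) (cU : ZU.card ≤ e) (cV : ZV.card ≤ e)
    (hX : ∀ a ∈ Icc (-(k : ℤ)) k, a ∈ ZC ∨ ∃ q ∈ D, q.1 = a)
    (hY : ∀ a ∈ Icc (-(k : ℤ)) k, a ∈ ZR ∨ ∃ q ∈ D, q.2 = a)
    (bX : ∀ q ∈ D, |q.1| ≤ k + 2) (bY : ∀ q ∈ D, |q.2| ≤ k + 2)
    (hcov : ∀ u v : ℤ, Odd (u + v) → |u| + |v| ≤ 2 * k + 1 → (v - u - 1) / 2 ∉ ZX →
      (u + v - 1) / 2 ∉ ZY → (u ∈ ZU ∨ ∃ q ∈ D, q.2 - q.1 = u) ∨ (v ∈ ZV ∨ ∃ q ∈ D, q.1 + q.2 = v)) : False := by
  classical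
  have cIcc : (Icc (-(k : ℤ)) k).card = 2 * k + 1 := by rw [Int.card_Icc]; omega
  have heQ : (1 : ℚ) ≤ e := by exact_mod_cast he1
  have hekQ : 1000000 * (e : ℚ) ≤ k := by exact_mod_cast he
  have hk6 : 1000000 ≤ k := by omega
  have hkQ : (1000000 : ℚ) ≤ k := by exact_mod_cast hk6
  have hcardQ : (D.card : ℚ) ≤ 2 * k + 1 + e := by exact_mod_cast hcard
  -- structure
  obtain ⟨A, B, hA, hAB, MU, MV, cMU, cMV, hMU, hMV⟩ := structR (k := k) (e := e)
    (US := D.image (fun q => q.2 - q.1) ∪ ZU) (VS := D.image (fun q => q.1 + q.2) ∪ ZV) (ZX := ZX) (ZY := ZY)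
    (by
      refine (card_union_le _ _).trans ?_
      have : (D.image (fun q : ℤ × ℤ => q.2 - q.1)).card ≤ D.card := card_image_le
      omega)
    (by
      refine (card_union_le _ _).trans ?_
      have : (D.image (fun q : ℤ × ℤ => q.1 + q.2)).card ≤ D.card := card_image_le
      omega) cX cY (by
      intro u v h1 h2 h3 h4
      rw [mem_union, mem_image, mem_union, mem_image]
      rcases hcov u v h1 h2 h3 h4 with (h | h) | (h | h)
      · exact Or.inl (Or.inr h)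
      · exact Or.inl (Or.inl h)
      · exact Or.inr (Or.inr h)
      · exact Or.inr (Or.inl h))
  have cTT : (TT A B).card = 2 * k + 1 := by rw [TT_card]; omega
  have tU : ∀ w ∈ TT A B, w ∈ MU ∪ ZU ∨ ∃ q ∈ D, q.2 - q.1 = w := by
    intro w hw
    rcases hMU w hw with h | h
    · left; exact mem_union_left _ h
    · rw [mem_union, mem_image] at h
      rcases h with h | h
      · right; exact h
      · left; exact mem_union_right _ h
  have tV : ∀ w ∈ TT A B, w ∈ MV ∪ ZV ∨ ∃ q ∈ D, q.1 + q.2 = w := by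
    intro w hw
    rcases hMV w hw with h | h
    · left; exact mem_union_left _ h
    · rw [mem_union, mem_image] at h
      rcases h with h | h
      · right; exact h
      · left; exact mem_union_right _ h
  have cMU' : ((MU ∪ ZU).card : ℚ) ≤ 9 * e := by
    have h1 : (MU ∪ ZU).card ≤ 9 * e := (card_union_le _ _).trans (by omega)
    exact_mod_cast h1
  have cMV' : ((MV ∪ ZV).card : ℚ) ≤ 9 * e := by
    have h1 : (MV ∪ ZV).card ≤ 9 * e := (card_union_le _ _).trans (by omega)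
    exact_mod_cast h1
  have bTT : ∀ w ∈ TT A B, |w| ≤ 2 * (k + 2) := by
    intro w hw
    unfold TT at hw
    rw [mem_union, mem_image, mem_image] at hw
    rcases hw with ⟨i, hi, rfl⟩ | ⟨i, hi, rfl⟩
    · rw [mem_Ioo] at hi
      rcases abs_cases (2 * i) with ⟨h, _⟩ | ⟨h, _⟩ <;> rw [h] <;> omega
    · rw [mem_Ico] at hi
      rcases abs_cases (2 * i + 1) with ⟨h, _⟩ | ⟨h, _⟩ <;> rw [h] <;> omega
  have bU : ∀ q ∈ D, |q.2 - q.1| ≤ 2 * ((k : ℤ) + 2) := by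
    intro q hq
    have h1 := bX q hq
    have h2 := bY q hq
    rw [abs_le] at *
    constructor <;> linarith [h1.1, h1.2, h2.1, h2.2]
  have bV : ∀ q ∈ D, |q.1 + q.2| ≤ 2 * ((k : ℤ) + 2) := by
    intro q hq
    have h1 := bX q hq
    have h2 := bY q hq
    rw [abs_le] at *
    constructor <;> linarith [h1.1, h1.2, h2.1, h2.2]
  -- transfer for the four families
  have sU : ∀ (f : ℤ → ℚ) (R : ℚ), 0 ≤ R → (∀ w : ℤ, |w| ≤ 2 * (k + 2) → |f w| ≤ R) →
      |∑ q ∈ D, f (q.2 - q.1) - ∑ w ∈ TT A B, f w| ≤ R * (19 * e) := by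
    intro f R hR hf
    refine (transfer D (fun q => q.2 - q.1) (TT A B) (MU ∪ ZU) tU f R hR (fun w hw => hf w (bTT w hw))
      (fun q hq => hf _ (bU q hq))).trans ?_
    apply mul_le_mul_of_nonneg_left _ hR
    rw [cTT]
    push_cast
    linarith
  have sV : ∀ (f : ℤ → ℚ) (R : ℚ), 0 ≤ R → (∀ w : ℤ, |w| ≤ 2 * (k + 2) → |f w| ≤ R) →
      |∑ q ∈ D, f (q.1 + q.2) - ∑ w ∈ TT A B, f w| ≤ R * (19 * e) := by
    intro f R hR hf
    refine (transfer D (fun q => q.1 + q.2) (TT A B) (MV ∪ ZV) tV f R hR (fun w hw => hf w (bTT w hw))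
      (fun q hq => hf _ (bV q hq))).trans ?_
    apply mul_le_mul_of_nonneg_left _ hR
    rw [cTT]
    push_cast
    linarith
  have cCQ : (ZC.card : ℚ) ≤ e := by exact_mod_cast cC
  have cRQ : (ZR.card : ℚ) ≤ e := by exact_mod_cast cR
  have bI : ∀ w ∈ Icc (-(k : ℤ)) k, |w| ≤ k + 2 := by
    intro w hw
    rw [mem_Icc] at hw
    rw [abs_le]
    constructor <;> linarith [hw.1, hw.2]
  have sX : ∀ (f : ℤ → ℚ) (R : ℚ), 0 ≤ R → (∀ w : ℤ, |w| ≤ k + 2 → |f w| ≤ R) →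
      |∑ q ∈ D, f q.1 - ∑ w ∈ Icc (-(k : ℤ)) k, f w| ≤ R * (3 * e) := by
    intro f R hR hf
    refine (transfer D Prod.fst (Icc (-(k : ℤ)) k) ZC hX f R hR (fun w hw => hf w (bI w hw))
      (fun q hq => hf _ (bX q hq))).trans ?_
    apply mul_le_mul_of_nonneg_left _ hR
    rw [cIcc]
    push_cast
    linarith
  have sY : ∀ (f : ℤ → ℚ) (R : ℚ), 0 ≤ R → (∀ w : ℤ, |w| ≤ k + 2 → |f w| ≤ R) →
      |∑ q ∈ D, f q.2 - ∑ w ∈ Icc (-(k : ℤ)) k, f w| ≤ R * (3 * e) := by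
    intro f R hR hf
    refine (transfer D Prod.snd (Icc (-(k : ℤ)) k) ZR hY f R hR (fun w hw => hf w (bI w hw))
      (fun q hq => hf _ (bY q hq))).trans ?_
    apply mul_le_mul_of_nonneg_left _ hR
    rw [cIcc]
    push_cast
    linarith
  obtain ⟨n, rfl⟩ : ∃ n, A = n + 1 := ⟨A - 1, by omega⟩
  have hIoo : Ioo (-((n + 1 : ℕ) : ℤ)) ((n + 1 : ℕ) : ℤ) = Icc (-(n : ℤ)) n := by
    ext x; simp only [mem_Ioo, mem_Icc]; push_cast; omega
  have hBk : (B : ℚ) = k - n := by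
    have : ((n + 1 + B : ℕ) : ℚ) = ((k + 1 : ℕ) : ℚ) := by rw [hAB]
    push_cast at this
    linarith
  have castb : ∀ (w : ℤ) (m : ℕ) , |w| ≤ (m : ℤ) → |(w : ℚ)| ≤ m := by
    intro w m h
    have : ((|w| : ℤ) : ℚ) ≤ ((m : ℤ) : ℚ) := by exact_mod_cast h
    rwa [Int.cast_abs] at this
  -- approximate moment identity
  have mom : |(2 * (k : ℚ) + 1) / 6 * (3 * (4 * (n : ℚ) + 1 - 2 * k) ^ 2 - (2 * k + 1) ^ 2 - 2)|
      ≤ 164 * e * ((k : ℚ) + 2) ^ 2 := by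
    have h1 : ∑ q ∈ D, (((q.2 - q.1 : ℤ) : ℚ) ^ 2) + ∑ q ∈ D, (((q.1 + q.2 : ℤ) : ℚ) ^ 2)
        = 2 * ∑ q ∈ D, ((q.1 : ℚ) ^ 2) + 2 * ∑ q ∈ D, ((q.2 : ℚ) ^ 2) := by
      rw [mul_sum, mul_sum, ← sum_add_distrib, ← sum_add_distrib]
      apply sum_congr rfl
      intro q _
      push_cast
      ring
    have sq2 : ∀ w : ℤ, |w| ≤ 2 * ((k : ℤ) + 2) → |((w : ℤ) : ℚ) ^ 2| ≤ 4 * ((k : ℚ) + 2) ^ 2 := by
      intro w hw
      have h := castb w (2 * (k + 2)) (by push_cast; exact hw)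
      rw [abs_pow]
      have h' := pow_le_pow_left₀ (abs_nonneg _) h 2
      push_cast at h'
      linarith [h']
    have sq1 : ∀ w : ℤ, |w| ≤ (k : ℤ) + 2 → |((w : ℤ) : ℚ) ^ 2| ≤ ((k : ℚ) + 2) ^ 2 := by
      intro w hw
      have h := castb w (k + 2) (by push_cast; exact hw)
      rw [abs_pow]
      have h' := pow_le_pow_left₀ (abs_nonneg _) h 2
      push_cast at h'
      linarith [h']
    have k1 := sU (fun w => (w : ℚ) ^ 2) (4 * ((k : ℚ) + 2) ^ 2) (by positivity) sq2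
    have k2 := sV (fun w => (w : ℚ) ^ 2) (4 * ((k : ℚ) + 2) ^ 2) (by positivity) sq2
    have k3 := sX (fun w => (w : ℚ) ^ 2) (((k : ℚ) + 2) ^ 2) (by positivity) sq1
    have k4 := sY (fun w => (w : ℚ) ^ 2) (((k : ℚ) + 2) ^ 2) (by positivity) sq1
    have hTTsq : ∑ w ∈ TT (n + 1) B, (w : ℚ) ^ 2 = 4 / 3 * (n * (n + 1) * (2 * n + 1)) +
        2 / 3 * (((k : ℚ) - n) * (2 * (k - n) - 1) * (2 * (k - n) + 1)) := by
      rw [TT_sum (n + 1) B (fun w => (w : ℚ) ^ 2), hIoo, sum_Ico_odd (fun w => (w : ℚ) ^ 2) (by intro i; push_cast; ring)]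
      have h2 : ∑ i ∈ Icc (-(n : ℤ)) n, ((2 * i : ℤ) : ℚ) ^ 2 = 4 * ∑ i ∈ Icc (-(n : ℤ)) n, ((i : ℤ) : ℚ) ^ 2 := by
        rw [mul_sum]; apply sum_congr rfl; intro i _; push_cast; ring
      rw [h2, sum_Icc_sym (fun w => (w : ℚ) ^ 2) (by intro i; push_cast; ring), sum_sq_range, sum_odd_sq_range, hBk]
      push_cast
      ring
    have hIsq : ∑ w ∈ Icc (-(k : ℤ)) k, (w : ℚ) ^ 2 = 1 / 3 * ((k : ℚ) * (k + 1) * (2 * k + 1)) := by
      rw [sum_Icc_sym (fun w => (w : ℚ) ^ 2) (by intro i; push_cast; ring), sum_sq_range]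
      push_cast
      ring
    rw [hTTsq] at k1 k2
    rw [hIsq] at k3 k4
    rw [abs_le] at k1 k2 k3 k4 ⊢
    constructor <;> nlinarith [k1.1, k1.2, k2.1, k2.2, k3.1, k3.2, k4.1, k4.2]
  -- main inequality
  have key : ∀ d x1 w0 : ℚ, 0 ≤ d → d ≤ x1 → 0 < x1 → 2 * x1 + d ≤ w0 → x1 ≤ k → w0 ≤ k + 2 → ∀ r : ℤ,
      (2 * ∑ w ∈ TT (n + 1) B, (if w % 2 = r then psi d x1 w0 |(w : ℚ)| else 0))
        ≤ 8 * ∑ i ∈ Finset.range k, gq d x1 (i + 1) + 164 * e * ((k : ℚ) + 2) ^ 2 := by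
    intro d x1 w0 h0 h1 hx1 hB hx1k hw0k r
    have hg0 : ∀ x : ℚ, 0 ≤ gq d x1 x := by
      intro x
      unfold gq
      split_ifs with h
      · exact mul_nonneg (by linarith) (by linarith)
      · exact le_rfl
    have f1 : ∀ w : ℤ, |w| ≤ 2 * ((k : ℤ) + 2) →
        |(if w % 2 = r then psi d x1 w0 |(w : ℚ)| else 0)| ≤ 4 * ((k : ℚ) + 2) ^ 2 := by
      intro w hw
      split_ifs
      · have h := castb w (2 * (k + 2)) (by push_cast; exact hw)
        push_cast at h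
        exact psi_bd h0 h1 hB hw0k (by linarith) (abs_nonneg _) h
      · rw [abs_zero]; positivity
    have f2 : ∀ w : ℤ, |w| ≤ (k : ℤ) + 2 → |(2 * gq d x1 (|(w : ℚ)|))| ≤ 2 * ((k : ℚ) + 2) ^ 2 := by
      intro w hw
      have h := castb w (k + 2) (by push_cast; exact hw)
      push_cast at h
      have h2 := gq_bd (x := |(w : ℚ)|) h0 h1 (abs_nonneg _) h
      rw [abs_of_nonneg (by linarith [h2.1])]
      linarith [h2.2]
    have k1 := (abs_le.1 (sU (fun w => if w % 2 = r then psi d x1 w0 |(w : ℚ)| else 0) _ (by positivity) f1)).1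
    have k2 := (abs_le.1 (sV (fun w => if w % 2 = r then psi d x1 w0 |(w : ℚ)| else 0) _ (by positivity) f1)).1
    have k3 := (abs_le.1 (sX (fun w => 2 * gq d x1 |(w : ℚ)|) _ (by positivity) f2)).2
    have k4 := (abs_le.1 (sY (fun w => 2 * gq d x1 |(w : ℚ)|) _ (by positivity) f2)).2
    have e2 : ∑ w ∈ Icc (-(k : ℤ)) k, 2 * gq d x1 |(w : ℚ)| = 4 * ∑ i ∈ Finset.range k, gq d x1 (i + 1) := by
      rw [sum_Icc_sym (fun w => 2 * gq d x1 |(w : ℚ)|) (by intro i; push_cast; rw [abs_neg])]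
      have z0 : gq d x1 |((0 : ℤ) : ℚ)| = 0 := by
        unfold gq; rw [Int.cast_zero, abs_zero, if_neg (not_le.2 hx1)]
      rw [z0]
      have z1 : ∑ i ∈ range k, 2 * gq d x1 |(((i : ℤ) + 1 : ℤ) : ℚ)| = 2 * ∑ i ∈ range k, gq d x1 ((i : ℚ) + 1) := by
        rw [mul_sum]
        apply sum_congr rfl
        intro i _
        rw [abs_of_nonneg (by positivity)]
        push_cast
        rfl
      rw [z1]
      ring
    have main : ∑ q ∈ D, (if (q.2 - q.1) % 2 = r then psi d x1 w0 |((q.2 - q.1 : ℤ) : ℚ)| else 0)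
          + ∑ q ∈ D, (if (q.1 + q.2) % 2 = r then psi d x1 w0 |((q.1 + q.2 : ℤ) : ℚ)| else 0)
        ≤ ∑ q ∈ D, 2 * gq d x1 |((q.1 : ℤ) : ℚ)| + ∑ q ∈ D, 2 * gq d x1 |((q.2 : ℤ) : ℚ)| := by
      rw [← sum_add_distrib, ← sum_add_distrib]
      apply sum_le_sum
      intro q _
      by_cases hPq : (q.1 + q.2) % 2 = r
      · rw [if_pos (by omega : (q.2 - q.1) % 2 = r), if_pos hPq]
        push_cast
        -- reduce to |x|,|y|
        have gen : ∀ x y : ℚ, 0 ≤ x → 0 ≤ y →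
            psi d x1 w0 |x - y| + psi d x1 w0 (x + y) ≤ 2 * gq d x1 x + 2 * gq d x1 y := by
          intro x y hx hy
          rcases le_total y x with h | h
          · rw [abs_of_nonneg (sub_nonneg.2 h)]
            exact cert h0 h1 hB hy h
          · rw [abs_sub_comm, abs_of_nonneg (sub_nonneg.2 h), add_comm x y]
            have := cert (w0 := w0) h0 h1 hB hx h
            linarith
        rcases le_total 0 (q.1 : ℚ) with hx | hx <;> rcases le_total 0 (q.2 : ℚ) with hy | hy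
        · have := gen _ _ hx hy
          rw [abs_sub_comm] at this
          rw [abs_of_nonneg hx, abs_of_nonneg hy, abs_of_nonneg (add_nonneg hx hy)]
          exact this
        · have := gen _ _ hx (neg_nonneg.2 hy)
          rw [abs_of_nonneg hx, abs_of_nonpos hy]
          have a1 : |(q.2 : ℚ) - q.1| = (q.1 : ℚ) + -(q.2 : ℚ) := by
            rw [abs_of_nonpos (by linarith)]; ring
          have a2 : |(q.1 : ℚ) - -(q.2 : ℚ)| = |(q.1 : ℚ) + q.2| := by rw [sub_neg_eq_add]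
          rw [a2] at this
          rw [a1]
          linarith
        · have := gen _ _ (neg_nonneg.2 hx) hy
          rw [abs_of_nonpos hx, abs_of_nonneg hy]
          have a1 : |(q.2 : ℚ) - q.1| = -(q.1 : ℚ) + (q.2 : ℚ) := by
            rw [abs_of_nonneg (by linarith)]; ring
          have a2 : |-(q.1 : ℚ) - (q.2 : ℚ)| = |(q.1 : ℚ) + q.2| := by
            rw [← abs_neg]; congr 1; ring
          rw [a2] at this
          rw [a1]
          linarith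
        · have := gen _ _ (neg_nonneg.2 hx) (neg_nonneg.2 hy)
          rw [abs_of_nonpos hx, abs_of_nonpos hy]
          have a1 : |(q.1 : ℚ) + q.2| = -(q.1 : ℚ) + -(q.2 : ℚ) := by
            rw [abs_of_nonpos (by linarith)]; ring
          have a2 : |-(q.1 : ℚ) - -(q.2 : ℚ)| = |(q.2 : ℚ) - q.1| := by
            congr 1; ring
          rw [a2] at this
          rw [a1]
          linarith
      · rw [if_neg (by omega : ¬ (q.2 - q.1) % 2 = r), if_neg hPq]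
        have := hg0 |((q.1 : ℤ) : ℚ)|
        have := hg0 |((q.2 : ℤ) : ℚ)|
        linarith
    rw [e2] at k3 k4
    nlinarith [k1, k2, k3, k4, main]
  have errb : 82 * (e : ℚ) * ((k : ℚ) + 2) ^ 2 ≤ (k : ℚ) ^ 3 / 10000 := by
    have h1 : ((k : ℚ) + 2) ^ 2 ≤ 101 / 100 * (k : ℚ) ^ 2 := by nlinarith
    have h2 : 82 * (e : ℚ) ≤ 82 / 1000000 * k := by linarith
    calc 82 * (e : ℚ) * ((k : ℚ) + 2) ^ 2 ≤ (82 / 1000000 * k) * (101 / 100 * (k : ℚ) ^ 2) :=
          mul_le_mul h2 h1 (by positivity) (by positivity)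
      _ ≤ (k : ℚ) ^ 3 / 10000 := by
          have : 0 ≤ (k : ℚ) ^ 3 := by positivity
          nlinarith
  -- even class
  have keyE : ∀ d x1 w0 : ℚ, 0 ≤ d → d ≤ x1 → 0 < x1 → 2 * x1 + d ≤ w0 → x1 ≤ k → w0 ≤ k + 2 →
      SLe (psi d x1 w0) n ≤ 4 * ∑ i ∈ Finset.range k, gq d x1 (i + 1) + (k : ℚ) ^ 3 / 10000 := by
    intro d x1 w0 h0 h1 hx1 hB hx1k hw0k
    have := key d x1 w0 h0 h1 hx1 hB hx1k hw0k 0
    rw [TT_sum, hIoo] at this
    have z1 : ∑ i ∈ Ico (-(B : ℤ)) B, (if (2 * i + 1) % 2 = 0 then psi d x1 w0 |((2 * i + 1 : ℤ) : ℚ)| else 0) = 0 := by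
      apply sum_eq_zero
      intro i _
      rw [if_neg (by omega)]
    have z2 : ∑ i ∈ Icc (-(n : ℤ)) n, (if (2 * i) % 2 = 0 then psi d x1 w0 |((2 * i : ℤ) : ℚ)| else 0)
        = SLe (psi d x1 w0) n := by
      have : ∀ i ∈ Icc (-(n : ℤ)) n, (if (2 * i) % 2 = 0 then psi d x1 w0 |((2 * i : ℤ) : ℚ)| else 0)
          = (fun j : ℤ => psi d x1 w0 |((2 * j : ℤ) : ℚ)|) i := by
        intro i _
        rw [if_pos (by omega)]
      rw [sum_congr rfl this, sum_Icc_sym _ (by intro i; congr 1; push_cast; rw [mul_neg, abs_neg])]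
      unfold SLe
      simp only [mul_zero, Int.cast_zero, abs_zero]
      congr 2
      apply sum_congr rfl
      intro i _
      congr 1
      push_cast
      rw [abs_of_nonneg (by positivity)]
    rw [z1, z2] at this
    linarith
  have keyO : ∀ d x1 w0 : ℚ, 0 ≤ d → d ≤ x1 → 0 < x1 → 2 * x1 + d ≤ w0 → x1 ≤ k → w0 ≤ k + 2 →
      SLo (psi d x1 w0) B ≤ 4 * ∑ i ∈ Finset.range k, gq d x1 (i + 1) + (k : ℚ) ^ 3 / 10000 := by
    intro d x1 w0 h0 h1 hx1 hB hx1k hw0k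
    have := key d x1 w0 h0 h1 hx1 hB hx1k hw0k 1
    rw [TT_sum, hIoo] at this
    have z1 : ∑ i ∈ Icc (-(n : ℤ)) n, (if (2 * i) % 2 = 1 then psi d x1 w0 |((2 * i : ℤ) : ℚ)| else 0) = 0 := by
      apply sum_eq_zero
      intro i _
      rw [if_neg (by omega)]
    have z2 : ∑ i ∈ Ico (-(B : ℤ)) B, (if (2 * i + 1) % 2 = 1 then psi d x1 w0 |((2 * i + 1 : ℤ) : ℚ)| else 0)
        = SLo (psi d x1 w0) B := by
      have : ∀ i ∈ Ico (-(B : ℤ)) B, (if (2 * i + 1) % 2 = 1 then psi d x1 w0 |((2 * i + 1 : ℤ) : ℚ)| else 0)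
          = (fun j : ℤ => psi d x1 w0 |(j : ℚ)|) (2 * i + 1) := by
        intro i _
        rw [if_pos (by omega)]
      rw [sum_congr rfl this, sum_Ico_odd (fun j : ℤ => psi d x1 w0 |(j : ℚ)|) (by intro i; congr 1; push_cast; rw [abs_neg])]
      unfold SLo
      congr 1
      apply sum_congr rfl
      intro i _
      congr 1
      push_cast
      rw [abs_of_nonneg (by positivity)]
    rw [z1, z2] at this
    linarith
  -- the moment identity forces one class to be large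
  have mom2 : (2 * (k : ℚ) + 1) * ((2 * k + 1) ^ 2 + 2 - 3 * (4 * (n : ℚ) + 1 - 2 * k) ^ 2) ≤
      1 / 1000 * (k : ℚ) ^ 3 := by
    have h := (abs_le.1 mom).1
    have h1 : ((k : ℚ) + 2) ^ 2 ≤ 101 / 100 * (k : ℚ) ^ 2 := by nlinarith
    have h2 : 984 * (e : ℚ) ≤ 984 / 1000000 * k := by linarith
    have h3 : 984 * (e : ℚ) * ((k : ℚ) + 2) ^ 2 ≤ (984 / 1000000 * k) * (101 / 100 * (k : ℚ) ^ 2) :=
          mul_le_mul h2 h1 (by positivity) (by positivity)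
    have h4 : 0 ≤ (k : ℚ) ^ 3 := by positivity
    nlinarith
  have hsmall : ¬ (|4 * (n : ℚ) + 1 - 2 * k| < 5773 / 10000 * (2 * (k : ℚ) + 1)) := by
    intro hlt
    have h1 : (4 * (n : ℚ) + 1 - 2 * k) ^ 2 ≤ (5773 / 10000 * (2 * (k : ℚ) + 1)) ^ 2 := by
      rw [← sq_abs]
      exact pow_le_pow_left₀ (abs_nonneg _) hlt.le 2
    have h2 : 17 / 100000 * (2 * (k : ℚ) + 1) ^ 2 ≤ (2 * k + 1) ^ 2 + 2 - 3 * (4 * (n : ℚ) + 1 - 2 * k) ^ 2 := by
      nlinarith [sq_nonneg (2 * (k : ℚ) + 1)]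
    have h3 : (2 * (k : ℚ) + 1) * (17 / 100000 * (2 * (k : ℚ) + 1) ^ 2) ≤ 1 / 1000 * (k : ℚ) ^ 3 :=
      (mul_le_mul_of_nonneg_left h2 (by positivity)).trans mom2
    have h4 : 0 < (k : ℚ) ^ 3 := by positivity
    have h5 : 0 < (k : ℚ) ^ 2 := by positivity
    nlinarith
  have hnk : n ≤ k := by omega
  rcases le_total 0 (4 * (n : ℚ) + 1 - 2 * k) with hs | hs
  · rw [abs_of_nonneg hs, not_lt] at hsmall
    obtain ⟨d, x1, w0, h0, h1, hx1, hB, hx1k, hw0k, hlt⟩ := cert_eR k n hk6 hnk (by linarith)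
    exact absurd (keyE d x1 w0 h0 h1 hx1 hB hx1k hw0k) (not_le.2 hlt)
  · rw [abs_of_nonpos hs, not_lt] at hsmall
    obtain ⟨d, x1, w0, h0, h1, hx1, hB, hx1k, hw0k, hlt⟩ := cert_oR k B hk6 (by omega) (by linarith)
    exact absurd (keyO d x1 w0 h0 h1 hx1 hB hx1k hw0k) (not_le.2 hlt)

end Pool.Agent.H642R3.QS
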