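import Pool.Agent.H642R3.QS.Colour

set_option autoImplicit false

namespace Pool.Agent.H642R3.QS

open Finset

/-- squares of two empty columns in a window -/
lemma two_cols (Y U V : Finset ℤ) (a b : ℤ) (hW : ∀ y ∈ Y, ∀ y' ∈ Y, y' - y < b - a)
    (hab : a < b) (ha : ∀ y ∈ Y, y - a ∈ U ∨ a + y ∈ V) (hb : ∀ y ∈ Y, y - b ∈ U ∨ b + y ∈ V) :
    2 * Y.card ≤ U.card + V.card := by
  classical
  have h1 : Y.card ≤ (Y.filter (fun y => y - a ∈ U)).card + (Y.filter (fun y => a + y ∈ V)).card := by
    refine le_trans (card_le_card ?_) (card_union_le _ _)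
    intro y hy
    rw [mem_union, mem_filter, mem_filter]
    rcases ha y hy with h | h
    · exact Or.inl ⟨hy, h⟩
    · exact Or.inr ⟨hy, h⟩
  have h2 : Y.card ≤ (Y.filter (fun y => y - b ∈ U)).card + (Y.filter (fun y => b + y ∈ V)).card := by
    refine le_trans (card_le_card ?_) (card_union_le _ _)
    intro y hy
    rw [mem_union, mem_filter, mem_filter]
    rcases hb y hy with h | h
    · exact Or.inl ⟨hy, h⟩
    · exact Or.inr ⟨hy, h⟩
  have h3 : (Y.filter (fun y => y - a ∈ U)).card + (Y.filter (fun y => y - b ∈ U)).card ≤ U.card := by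
    have e1 : ((Y.filter (fun y => y - a ∈ U)).image (fun y => y - a)).card = (Y.filter (fun y => y - a ∈ U)).card :=
      card_image_of_injective _ (fun x y h => by have : x - a = y - a := h; linarith)
    have e2 : ((Y.filter (fun y => y - b ∈ U)).image (fun y => y - b)).card = (Y.filter (fun y => y - b ∈ U)).card :=
      card_image_of_injective _ (fun x y h => by have : x - b = y - b := h; linarith)
    rw [← e1, ← e2, ← card_union_of_disjoint]
    · apply card_le_card
      intro w hw
      rw [mem_union, mem_image, mem_image] at hw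
      rcases hw with ⟨y, hy, rfl⟩ | ⟨y, hy, rfl⟩
      · exact (mem_filter.1 hy).2
      · exact (mem_filter.1 hy).2
    · rw [disjoint_left]
      intro w h1 h2
      rw [mem_image] at h1 h2
      obtain ⟨y, hy, rfl⟩ := h1
      obtain ⟨y', hy', h⟩ := h2
      have := hW y (mem_filter.1 hy).1 y' (mem_filter.1 hy').1
      linarith
  have h4 : (Y.filter (fun y => a + y ∈ V)).card + (Y.filter (fun y => b + y ∈ V)).card ≤ V.card := by
    have e1 : ((Y.filter (fun y => a + y ∈ V)).image (fun y => a + y)).card = (Y.filter (fun y => a + y ∈ V)).card :=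
      card_image_of_injective _ (fun x y h => by have : a + x = a + y := h; linarith)
    have e2 : ((Y.filter (fun y => b + y ∈ V)).image (fun y => b + y)).card = (Y.filter (fun y => b + y ∈ V)).card :=
      card_image_of_injective _ (fun x y h => by have : b + x = b + y := h; linarith)
    rw [← e1, ← e2, ← card_union_of_disjoint]
    · apply card_le_card
      intro w hw
      rw [mem_union, mem_image, mem_image] at hw
      rcases hw with ⟨y, hy, rfl⟩ | ⟨y, hy, rfl⟩
      · exact (mem_filter.1 hy).2
      · exact (mem_filter.1 hy).2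
    · rw [disjoint_left]
      intro w h1 h2
      rw [mem_image] at h1 h2
      obtain ⟨y, hy, rfl⟩ := h1
      obtain ⟨y', hy', h⟩ := h2
      have := hW y' (mem_filter.1 hy').1 y (mem_filter.1 hy).1
      linarith
  omega

/-- lower bound for a residue class in an interval -/
lemma cls_lower (a : ℤ) (m p : ℕ) (hp : 0 < p) (r : ℤ) (h0 : 0 ≤ r) (h1 : r < p) :
    m / p ≤ ((Ico a (a + m)).filter (fun x => x % (p : ℤ) = r)).card := by
  classical
  have hp' : (0 : ℤ) < p := by exact_mod_cast hp
  rw [← card_range (m / p)]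
  apply card_le_card_of_injOn (fun i : ℕ => a + (r - a) % (p : ℤ) + p * i)
  · intro i hi
    rw [Finset.mem_coe, mem_range] at hi
    rw [Finset.mem_coe, mem_filter, mem_Ico]
    have e1 := Int.emod_nonneg (r - a) hp'.ne'
    have e2 := Int.emod_lt_of_pos (r - a) hp'
    have e3 : (p : ℤ) * ((i : ℤ) + 1) ≤ m := by
      have : p * (i + 1) ≤ m := (Nat.mul_le_mul_left p (by omega : i + 1 ≤ m / p)).trans (Nat.mul_div_le m p)
      exact_mod_cast this
    have e4 : (0 : ℤ) ≤ p * i := by positivity
    refine ⟨⟨by linarith, by linarith⟩, ?_⟩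
    rw [Int.add_mul_emod_self_left, Int.add_emod_emod]
    have : a + (r - a) = r := by ring
    rw [this, Int.emod_eq_of_lt h0 h1]
  · intro i _ j _ hij
    have h2 : a + (r - a) % (p : ℤ) + p * i = a + (r - a) % (p : ℤ) + p * j := hij
    have h3 : (p : ℤ) * i = p * j := by linarith
    have := mul_left_cancel₀ hp'.ne' h3
    exact_mod_cast this

/-- upper bound for a residue class in an interval -/
lemma cls_upper (a : ℤ) (m p : ℕ) (hp : 0 < p) (r : ℤ) :
    ((Ico a (a + m)).filter (fun x => x % (p : ℤ) = r)).card ≤ m / p + 1 := by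
  classical
  have hp' : (0 : ℤ) < p := by exact_mod_cast hp
  rw [← card_range (m / p + 1)]
  apply card_le_card_of_injOn (fun x : ℤ => ((x - a) / p).toNat)
  · intro x hx
    rw [Finset.mem_coe, mem_filter, mem_Ico] at hx
    rw [Finset.mem_coe, mem_range]
    have h1 : 0 ≤ (x - a) / (p : ℤ) := Int.ediv_nonneg (by linarith [hx.1.1]) hp'.le
    have h2 : (x - a) / (p : ℤ) ≤ (m : ℤ) / p := Int.ediv_le_ediv hp' (by linarith [hx.1.2])
    have h3 : ((m / p : ℕ) : ℤ) = (m : ℤ) / p := by push_cast; rfl
    change ((x - a) / (p : ℤ)).toNat < m / p + 1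
    omega
  · intro x hx y hy hxy
    rw [Finset.mem_coe, mem_filter, mem_Ico] at hx hy
    have h1 : 0 ≤ (x - a) / (p : ℤ) := Int.ediv_nonneg (by linarith [hx.1.1]) hp'.le
    have h2 : 0 ≤ (y - a) / (p : ℤ) := Int.ediv_nonneg (by linarith [hy.1.1]) hp'.le
    have h3 : ((x - a) / (p : ℤ)).toNat = ((y - a) / (p : ℤ)).toNat := hxy
    have h4 : (x - a) / (p : ℤ) = (y - a) / (p : ℤ) := by omega
    have h5 : (x - a) % (p : ℤ) = (y - a) % (p : ℤ) := by
      rw [Int.sub_emod, hx.2, Int.sub_emod y, hy.2]
    have h6 := Int.emod_add_mul_ediv (x - a) p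
    have h7 := Int.emod_add_mul_ediv (y - a) p
    rw [h4, h5] at h6
    linarith

end Pool.Agent.H642R3.QS
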