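import Pool.Agent.H642R3.QS.Per1

set_option autoImplicit false

namespace Pool.Agent.H642R3.QS

open Finset

/-- the empty columns and rows are, up to `e` lines each, the residue classes `Γ`, `P` modulo `p` -/
structure Per (n p e : ℕ) (S : Finset (ℤ × ℤ)) (Γ P ZC ZR : Finset ℤ) : Prop where
  hp : 0 < p
  bd : ∀ q ∈ S, 0 ≤ q.1 ∧ q.1 < n ∧ 0 ≤ q.2 ∧ q.2 < n
  dom : ∀ x y : ℤ, 0 ≤ x → x < n → 0 ≤ y → y < n →
      ∃ q ∈ S, x = q.1 ∨ y = q.2 ∨ x + y = q.1 + q.2 ∨ x + q.2 = q.1 + y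
  sm : 2 * S.card ≤ n + 2 * e
  cC : ZC.card ≤ e
  cR : ZR.card ≤ e
  gC : ∀ γ ∈ Γ, 0 ≤ γ ∧ γ < p
  gR : ∀ γ ∈ P, 0 ≤ γ ∧ γ < p
  hC : ∀ x : ℤ, 0 ≤ x → x < n → x ∉ ZC → (x % p ∈ Γ ↔ ∀ q ∈ S, q.1 ≠ x)
  hR : ∀ x : ℤ, 0 ≤ x → x < n → x ∉ ZR → (x % p ∈ P ↔ ∀ q ∈ S, q.2 ≠ x)
  big : 40 * p * (e + 1) * p ≤ n

namespace Per

variable {n p e : ℕ} {S : Finset (ℤ × ℤ)} {Γ P ZC ZR : Finset ℤ}

/-- difference diagonals of a class -/
def Uc (S : Finset (ℤ × ℤ)) (p : ℕ) (μ : ℤ) : Finset ℤ := (S.image (fun q => q.2 - q.1)).filter (fun w => w % p = μ)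

/-- sum diagonals of a class -/
def Vc (S : Finset (ℤ × ℤ)) (p : ℕ) (μ : ℤ) : Finset ℤ := (S.image (fun q => q.1 + q.2)).filter (fun w => w % p = μ)

lemma L_big (h : Per n p e S Γ P ZC ZR) : 40 * p * (e + 1) ≤ n / p := by
  rw [Nat.le_div_iff_mul_le h.hp]
  exact h.big

lemma cost (h : Per n p e S Γ P ZC ZR) {γ ρ : ℤ} (hγ : γ ∈ Γ) (hρ : ρ ∈ P) :
    2 * (n / p) ≤ (Uc S p ((ρ - γ) % p)).card + (Vc S p ((ρ + γ) % p)).card + (6 * e + 4) := by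
  classical
  have hp := h.hp
  have hp' : (0 : ℤ) < p := by exact_mod_cast hp
  have hL := h.L_big
  obtain ⟨g0, g1⟩ := h.gC γ hγ
  obtain ⟨r0, r1⟩ := h.gR ρ hρ
  set k : ℕ := p * (e + 1) with hk
  have hkn : 2 * k + 1 ≤ n := by
    have h1 := h.big
    have h2 : k ≤ p * (e + 1) * p := Nat.le_mul_of_pos_right _ hp
    have h3 : 40 * p * (e + 1) * p = 40 * (p * (e + 1) * p) := by ring
    have h4 : 1 ≤ p * (e + 1) * p := Nat.mul_pos (Nat.mul_pos hp (Nat.succ_pos e)) hp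
    omega
  have hkp : k / p = e + 1 := Nat.mul_div_cancel_left _ hp
  obtain ⟨a, ha, haZ⟩ : ∃ a ∈ (Ico (0 : ℤ) (0 + k)).filter (fun x => x % (p : ℤ) = γ), a ∉ ZC := by
    by_contra hcon
    push Not at hcon
    have h1 := cls_lower 0 k p hp γ g0 g1
    have h2 := card_le_card (show (Ico (0 : ℤ) (0 + k)).filter (fun x => x % (p : ℤ) = γ) ⊆ ZC from hcon)
    have := h.cC
    omega
  obtain ⟨b, hb, hbZ⟩ : ∃ a ∈ (Ico ((n : ℤ) - k) ((n : ℤ) - k + k)).filter (fun x => x % (p : ℤ) = γ), a ∉ ZC := by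
    by_contra hcon
    push Not at hcon
    have h1 := cls_lower ((n : ℤ) - k) k p hp γ g0 g1
    have h2 := card_le_card (show (Ico ((n : ℤ) - k) ((n : ℤ) - k + k)).filter (fun x => x % (p : ℤ) = γ) ⊆ ZC from hcon)
    have := h.cC
    omega
  rw [mem_filter, mem_Ico] at ha hb
  obtain ⟨⟨ha0, ha1⟩, ha2⟩ := ha
  obtain ⟨⟨hb0, hb1⟩, hb2⟩ := hb
  have hae := (h.hC a ha0 (by omega) haZ).1 (by rw [ha2]; exact hγ)
  have hbe := (h.hC b (by omega) (by omega) hbZ).1 (by rw [hb2]; exact hγ)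
  set Y : Finset ℤ := (Ico (0 : ℤ) (0 + ((n - 2 * k : ℕ) : ℤ))).filter (fun x => x % (p : ℤ) = ρ) \ ZR with hY
  have hYm : ∀ y ∈ Y, 0 ≤ y ∧ y < (n : ℤ) - 2 * k ∧ y % p = ρ ∧ ∀ q ∈ S, q.2 ≠ y := by
    intro y hy
    rw [hY, mem_sdiff, mem_filter, mem_Ico] at hy
    obtain ⟨⟨⟨y0, y1⟩, y2⟩, y3⟩ := hy
    refine ⟨y0, by omega, y2, ?_⟩
    exact (h.hR y y0 (by omega) y3).1 (by rw [y2]; exact hρ)
  have hYc : n / p ≤ Y.card + 3 * e + 2 := by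
    have h1 := cls_lower 0 (n - 2 * k) p hp ρ r0 r1
    have h2 : (n - 2 * k) / p = n / p - 2 * (e + 1) := by
      have : 2 * k = p * (2 * (e + 1)) := by rw [hk]; ring
      rw [this, Nat.sub_mul_div]
    have h3 := le_card_sdiff ZR ((Ico (0 : ℤ) (0 + ((n - 2 * k : ℕ) : ℤ))).filter (fun x => x % (p : ℤ) = ρ))
    rw [← hY] at h3
    have := h.cR
    omega
  have cov : ∀ z : ℤ, 0 ≤ z → z < n → z % p = γ → (∀ q ∈ S, q.1 ≠ z) → ∀ y ∈ Y,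
      y - z ∈ Uc S p ((ρ - γ) % p) ∨ z + y ∈ Vc S p ((ρ + γ) % p) := by
    intro z z0 z1 z2 z3 y hy
    obtain ⟨y0, y1, y2, y3⟩ := hYm y hy
    obtain ⟨q, hq, hh⟩ := h.dom z y z0 z1 y0 (by omega)
    rcases hh with hh | hh | hh | hh
    · exact absurd hh.symm (z3 q hq)
    · exact absurd hh.symm (y3 q hq)
    · right
      unfold Vc
      rw [mem_filter, mem_image]
      refine ⟨⟨q, hq, hh.symm⟩, ?_⟩
      rw [← y2, ← z2, Int.add_comm z y]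
      exact Int.add_emod y z p ▸ by rw [Int.add_emod]
    · left
      unfold Uc
      rw [mem_filter, mem_image]
      refine ⟨⟨q, hq, by linarith⟩, ?_⟩
      rw [← y2, ← z2]
      rw [Int.sub_emod]
  have := two_cols Y (Uc S p ((ρ - γ) % p)) (Vc S p ((ρ + γ) % p)) a b (by
    intro y hy y' hy'
    have := hYm y hy
    have := hYm y' hy'
    omega) (by omega) (cov a ha0 (by omega) ha2 hae) (cov b (by omega) (by omega) hb2 hbe)
  omega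

end Per

end Pool.Agent.H642R3.QS
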