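import Pool.Agent.H642R3.QS.Per2
import Pool.Agent.H642R3.Q.Box

set_option autoImplicit false

namespace Pool.Agent.H642R3.QS

open Finset Pool.Agent.H642R3.Q

lemma cls_sum (W P : Finset ℤ) (p : ℕ) (f : ℤ → ℤ) (hf : Set.InjOn f P) (μ0 : ℤ) (h0 : ∀ ρ ∈ P, f ρ ≠ μ0) :
    ∑ ρ ∈ P, (W.filter (fun w => w % (p : ℤ) = f ρ)).card + (W.filter (fun w => w % (p : ℤ) = μ0)).card ≤ W.card := by
  classical
  have h1 := cnt_sum W (fun w => w % (p : ℤ)) (insert μ0 (P.image f))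
  rw [sum_insert (by
    intro h
    obtain ⟨ρ, hρ, h'⟩ := mem_image.1 h
    exact h0 ρ hρ h'), sum_image hf] at h1
  have h2 : (W.filter (fun q => q % (p : ℤ) ∈ insert μ0 (P.image f))).card ≤ W.card := card_filter_le _ _
  unfold cnt at h1
  have h3 : (W.filter (fun w => w % (p : ℤ) = μ0)).card + ∑ ρ ∈ P, (W.filter (fun w => w % (p : ℤ) = f ρ)).card =
      (W.filter (fun q => q % (p : ℤ) ∈ insert μ0 (P.image f))).card := h1
  omega

lemma cls_sum' (W P : Finset ℤ) (p : ℕ) (f : ℤ → ℤ) (hf : Set.InjOn f P) :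
    ∑ ρ ∈ P, (W.filter (fun w => w % (p : ℤ) = f ρ)).card ≤ W.card := by
  classical
  have h1 := cnt_sum W (fun w => w % (p : ℤ)) (P.image f)
  rw [sum_image hf] at h1
  have h2 : (W.filter (fun q => q % (p : ℤ) ∈ P.image f)).card ≤ W.card := card_filter_le _ _
  unfold cnt at h1
  have h3 : ∑ ρ ∈ P, (W.filter (fun w => w % (p : ℤ) = f ρ)).card =
      (W.filter (fun q => q % (p : ℤ) ∈ P.image f)).card := h1
  omega

lemma emod_inj {p : ℤ} {x y : ℤ} (t : ℤ) (hx0 : 0 ≤ x) (hx1 : x < p) (hy0 : 0 ≤ y) (hy1 : y < p)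
    (h : (x + t) % p = (y + t) % p) : x = y := by
  have h1 : x + t ≡ y + t [ZMOD p] := h
  have h2 : x % p = y % p := Int.ModEq.add_right_cancel' t h1
  rwa [Int.emod_eq_of_lt hx0 hx1, Int.emod_eq_of_lt hy0 hy1] at h2

namespace Per

variable {n p e : ℕ} {S : Finset (ℤ × ℤ)} {Γ P ZC ZR : Finset ℤ}

lemma injU (h : Per n p e S Γ P ZC ZR) (γ : ℤ) : Set.InjOn (fun ρ : ℤ => (ρ - γ) % (p : ℤ)) P := by
  intro x hx y hy hxy
  have h1 := h.gR x hx
  have h2 := h.gR y hy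
  exact emod_inj (-γ) h1.1 h1.2 h2.1 h2.2 hxy

lemma injV (h : Per n p e S Γ P ZC ZR) (γ : ℤ) : Set.InjOn (fun ρ : ℤ => (ρ + γ) % (p : ℤ)) P := by
  intro x hx y hy hxy
  have h1 := h.gR x hx
  have h2 := h.gR y hy
  exact emod_inj γ h1.1 h1.2 h2.1 h2.2 hxy

lemma sum_cost (h : Per n p e S Γ P ZC ZR) {γ : ℤ} (hγ : γ ∈ Γ) :
    P.card * (2 * (n / p)) ≤ ∑ ρ ∈ P, (Uc S p ((ρ - γ) % p)).card + ∑ ρ ∈ P, (Vc S p ((ρ + γ) % p)).card +
      P.card * (6 * e + 4) := by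
  rw [← sum_add_distrib]
  have h1 : P.card * (2 * (n / p)) = ∑ _ρ ∈ P, 2 * (n / p) := by rw [sum_const, smul_eq_mul]
  have h2 : P.card * (6 * e + 4) = ∑ _ρ ∈ P, (6 * e + 4) := by rw [sum_const, smul_eq_mul]
  rw [h1, h2, ← sum_add_distrib]
  apply sum_le_sum
  intro ρ hρ
  exact h.cost hγ hρ

lemma cU : (S.image (fun q : ℤ × ℤ => q.2 - q.1)).card ≤ S.card := card_image_le
lemma cV : (S.image (fun q : ℤ × ℤ => q.1 + q.2)).card ≤ S.card := card_image_le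

lemma row0 (h : Per n p e S Γ P ZC ZR) {γ : ℤ} (hγ : γ ∈ Γ) :
    P.card * (2 * (n / p)) ≤ 2 * S.card + P.card * (6 * e + 4) := by
  have h1 := h.sum_cost hγ
  have h2 := cls_sum' (S.image (fun q : ℤ × ℤ => q.2 - q.1)) P p (fun ρ => (ρ - γ) % (p : ℤ)) (h.injU γ)
  have h3 := cls_sum' (S.image (fun q : ℤ × ℤ => q.1 + q.2)) P p (fun ρ => (ρ + γ) % (p : ℤ)) (h.injV γ)
  have h4 := cU (S := S)
  have h5 := cV (S := S)
  unfold Uc Vc at h1
  omega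

lemma rowU (h : Per n p e S Γ P ZC ZR) {γ : ℤ} (hγ : γ ∈ Γ) (μ : ℤ) (hμ : ∀ ρ ∈ P, (ρ - γ) % (p : ℤ) ≠ μ) :
    P.card * (2 * (n / p)) + (Uc S p μ).card ≤ 2 * S.card + P.card * (6 * e + 4) := by
  have h1 := h.sum_cost hγ
  have h2 := cls_sum (S.image (fun q : ℤ × ℤ => q.2 - q.1)) P p (fun ρ => (ρ - γ) % (p : ℤ)) (h.injU γ) μ hμ
  have h3 := cls_sum' (S.image (fun q : ℤ × ℤ => q.1 + q.2)) P p (fun ρ => (ρ + γ) % (p : ℤ)) (h.injV γ)
  have h4 := cU (S := S)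
  have h5 := cV (S := S)
  unfold Uc Vc at h1
  unfold Uc
  omega

lemma rowV (h : Per n p e S Γ P ZC ZR) {γ : ℤ} (hγ : γ ∈ Γ) (μ : ℤ) (hμ : ∀ ρ ∈ P, (ρ + γ) % (p : ℤ) ≠ μ) :
    P.card * (2 * (n / p)) + (Vc S p μ).card ≤ 2 * S.card + P.card * (6 * e + 4) := by
  have h1 := h.sum_cost hγ
  have h2 := cls_sum' (S.image (fun q : ℤ × ℤ => q.2 - q.1)) P p (fun ρ => (ρ - γ) % (p : ℤ)) (h.injU γ)
  have h3 := cls_sum (S.image (fun q : ℤ × ℤ => q.1 + q.2)) P p (fun ρ => (ρ + γ) % (p : ℤ)) (h.injV γ) μ hμ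
  have h4 := cU (S := S)
  have h5 := cV (S := S)
  unfold Uc Vc at h1
  unfold Vc
  omega

lemma total (n p e : ℕ) (hp : 0 < p) (S : Finset (ℤ × ℤ)) (f : ℤ × ℤ → ℤ) (G Z : Finset ℤ) (hZ : Z.card ≤ e)
    (hh : ∀ x : ℤ, 0 ≤ x → x < n → x ∉ Z → (x % p ∈ G ↔ ∀ q ∈ S, f q ≠ x)) :
    n ≤ S.card + e + G.card * (n / p + 1) := by
  classical
  have hsub : Ico (0 : ℤ) (0 + n) ⊆ S.image f ∪ (Z ∪ G.biUnion (fun γ => (Ico (0 : ℤ) (0 + n)).filter (fun x => x % (p : ℤ) = γ))) := by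
    intro x hx
    rw [mem_union, mem_union]
    by_cases h1 : x ∈ S.image f
    · exact Or.inl h1
    · by_cases h2 : x ∈ Z
      · exact Or.inr (Or.inl h2)
      · right; right
        have hx' := hx
        rw [mem_Ico] at hx'
        rw [mem_biUnion]
        refine ⟨x % p, (hh x hx'.1 (by linarith [hx'.2]) h2).2 ?_, mem_filter.2 ⟨hx, rfl⟩⟩
        intro q hq hqx
        exact h1 (mem_image.2 ⟨q, hq, hqx⟩)
  have h1 := (card_le_card hsub).trans (card_union_le _ _)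
  have h2 := card_union_le Z (G.biUnion (fun γ => (Ico (0 : ℤ) (0 + n)).filter (fun x => x % (p : ℤ) = γ)))
  have h3 : (G.biUnion (fun γ => (Ico (0 : ℤ) (0 + n)).filter (fun x => x % (p : ℤ) = γ))).card ≤ G.card * (n / p + 1) :=
    card_biUnion_le_card_mul _ _ _ (fun γ _ => cls_upper 0 n p hp γ)
  have h4 : (S.image f).card ≤ S.card := card_image_le
  rw [Int.card_Ico] at h1
  omega

lemma half_le (h : Per n p e S Γ P ZC ZR) (G Z : Finset ℤ) (f : ℤ × ℤ → ℤ) (hZ : Z.card ≤ e)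
    (hh : ∀ x : ℤ, 0 ≤ x → x < n → x ∉ Z → (x % p ∈ G ↔ ∀ q ∈ S, f q ≠ x)) : p ≤ 2 * G.card := by
  by_contra hcon
  push Not at hcon
  have h1 := total n p e h.hp S f G Z hZ hh
  have h2 := h.sm
  have h3 := h.L_big
  have h4 : p * (n / p) ≤ n := Nat.mul_div_le n p
  have hp := h.hp
  set L := n / p
  obtain ⟨g, hg⟩ : ∃ g, p = 2 * G.card + 1 + g := ⟨p - (2 * G.card + 1), by omega⟩
  have h5 : 40 * (e + 1) ≤ L := by
    refine le_trans ?_ h3
    nlinarith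
  nlinarith

/-- both class sets have exactly `p / 2` members -/
lemma cardP (h : Per n p e S Γ P ZC ZR) : 2 * P.card = p := by
  have h1 := h.half_le P ZR Prod.snd h.cR h.hR
  have h2 := h.half_le Γ ZC Prod.fst h.cC h.hC
  have hp := h.hp
  have hne : Γ.Nonempty := by rw [← card_pos]; omega
  obtain ⟨γ, hγ⟩ := hne
  have h3 := h.row0 hγ
  have h4 := h.sm
  have h5 := h.L_big
  have h6 : n < p * (n / p + 1) := by
    have := Nat.lt_mul_div_succ n hp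
    exact this
  have hPp : P.card ≤ p := by
    have : P ⊆ Ico (0 : ℤ) p := by
      intro x hx
      rw [mem_Ico]
      exact h.gR x hx
    have := card_le_card this
    rw [Int.card_Ico] at this
    omega
  by_contra hne
  obtain ⟨g, hg⟩ : ∃ g, 2 * P.card = p + 1 + g := ⟨2 * P.card - (p + 1), by omega⟩
  set L := n / p
  have h7 : P.card * (6 * e + 4) ≤ p * (6 * e + 4) := Nat.mul_le_mul_right _ hPp
  have h8 : P.card * (2 * L) = (p + 1 + g) * L := by rw [← hg]; ring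
  nlinarith

end Per

end Pool.Agent.H642R3.QS
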