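import Pool.Agent.H642R3.QS.Per3

set_option autoImplicit false

namespace Pool.Agent.H642R3.QS

open Finset Pool.Agent.H642R3.Q

lemma bijA {p : ℤ} (hp : 0 < p) (Γ P : Finset ℤ) (hG : ∀ γ ∈ Γ, 0 ≤ γ ∧ γ < p) (hc : P.card ≤ Γ.card) (t : ℤ)
    (h : ∀ x ∈ Γ, (x + t) % p ∈ P) (x : ℤ) : x % p ∈ Γ ↔ (x + t) % p ∈ P := by
  classical
  have himg : Γ.image (fun x => (x + t) % p) = P := by
    apply eq_of_subset_of_card_le
    · intro y hy
      obtain ⟨x, hx, rfl⟩ := mem_image.1 hy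
      exact h x hx
    · rw [card_image_of_injOn]
      · exact hc
      · intro x hx y hy hxy
        have h1 := hG x hx
        have h2 := hG y hy
        exact emod_inj t h1.1 h1.2 h2.1 h2.2 hxy
  constructor
  · intro hx
    have := h _ hx
    rwa [Int.emod_add_emod] at this
  · intro hx
    rw [← himg, mem_image] at hx
    obtain ⟨y, hy, hyx⟩ := hx
    have h1 := hG y hy
    have h2 : (y + t) % p = (x % p + t) % p := by rw [Int.emod_add_emod]; exact hyx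
    have h3 := emod_inj t h1.1 h1.2 (Int.emod_nonneg x hp.ne') (Int.emod_lt_of_pos x hp) h2
    rw [← h3]
    exact hy

lemma bijB {p : ℤ} (hp : 0 < p) (Γ P : Finset ℤ) (hG : ∀ γ ∈ Γ, 0 ≤ γ ∧ γ < p) (hc : P.card ≤ Γ.card) (t : ℤ)
    (h : ∀ x ∈ Γ, (t - x) % p ∈ P) (x : ℤ) : x % p ∈ Γ ↔ (t - x) % p ∈ P := by
  classical
  have key : ∀ x y : ℤ, (t - x) % p = (t - y) % p → x % p = y % p := by
    intro x y hxy
    have h1 : t - x ≡ t - y [ZMOD p] := hxy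
    have h2 : x ≡ y [ZMOD p] := by
      have := (Int.ModEq.refl t).sub h1
      simpa using this
    exact h2
  have himg : Γ.image (fun x => (t - x) % p) = P := by
    apply eq_of_subset_of_card_le
    · intro y hy
      obtain ⟨x, hx, rfl⟩ := mem_image.1 hy
      exact h x hx
    · rw [card_image_of_injOn]
      · exact hc
      · intro x hx y hy hxy
        have h1 := hG x hx
        have h2 := hG y hy
        have h3 := key x y hxy
        rwa [Int.emod_eq_of_lt h1.1 h1.2, Int.emod_eq_of_lt h2.1 h2.2] at h3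
  constructor
  · intro hx
    have := h _ hx
    have e : (t - x % p) % p = (t - x) % p := Int.ModEq.sub_left t (Int.mod_modEq x p)
    rwa [e] at this
  · intro hx
    rw [← himg, mem_image] at hx
    obtain ⟨y, hy, hyx⟩ := hx
    have h1 := hG y hy
    have h3 := key y x hyx
    rw [Int.emod_eq_of_lt h1.1 h1.2] at h3
    rw [← h3]
    exact hy

lemma cls_exact (d k : ℕ) (hd : 0 < d) (a : ℤ) (X : Finset ℤ)
    (hX : ∀ x ∈ X, 0 ≤ x ∧ x < (d * k : ℕ) ∧ x % (d : ℤ) = a) : X.card ≤ k := by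
  classical
  have hd' : (0 : ℤ) < d := by exact_mod_cast hd
  have h1 : (X.image (fun x => x / (d : ℤ))).card = X.card := by
    apply card_image_of_injOn
    intro x hx y hy hxy
    have h1 := hX x hx
    have h2 := hX y hy
    have hxy' : x / (d : ℤ) = y / (d : ℤ) := hxy
    have e1 := Int.emod_add_mul_ediv x d
    have e2 := Int.emod_add_mul_ediv y d
    rw [h1.2.2, hxy'] at e1
    rw [h2.2.2] at e2
    linarith
  have h2 : X.image (fun x => x / (d : ℤ)) ⊆ Ico (0 : ℤ) k := by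
    intro z hz
    obtain ⟨x, hx, rfl⟩ := mem_image.1 hz
    have h1 := hX x hx
    rw [mem_Ico]
    refine ⟨Int.ediv_nonneg h1.1 hd'.le, Int.ediv_lt_of_lt_mul hd' ?_⟩
    have := h1.2.1
    push_cast at this
    linarith
  have h3 := card_le_card h2
  rw [Int.card_Ico, h1] at h3
  omega

namespace Per

variable {n p e : ℕ} {S : Finset (ℤ × ℤ)} {Γ P ZC ZR : Finset ℤ}

lemma smallness (h : Per n p e S Γ P ZC ZR) : P.card * (2 * (n / p)) + (3 * p + 2 * e + 3 * p * e) ≥ 2 * S.card + P.card * (6 * e + 4) ∧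
    4 * (3 * p + 2 * e + 3 * p * e) + 2 * (6 * e + 4) + 4 * e < 2 * (n / p) := by
  have h1 := h.cardP
  have h2 := h.sm
  have h3 : n < p * (n / p + 1) := Nat.lt_mul_div_succ n h.hp
  have h4 := h.L_big
  have hp := h.hp
  set L := n / p
  have e1 : P.card * (2 * L) = p * L := by rw [← h1]; ring
  have e2 : P.card * (6 * e + 4) = p * (3 * e + 2) := by rw [← h1]; ring
  constructor
  · rw [e1, e2]
    nlinarith
  · have h5 : e ≤ p * e := Nat.le_mul_of_pos_left _ hp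
    nlinarith

lemma disj (h : Per n p e S Γ P ZC ZR) {γ ρ : ℤ} (hγ : γ ∈ Γ) (hρ : ρ ∈ P) :
    (∀ x ∈ Γ, (x + (ρ - γ)) % (p : ℤ) ∈ P) ∨ (∀ x ∈ Γ, (ρ + γ - x) % (p : ℤ) ∈ P) := by
  by_contra hcon
  rw [not_or] at hcon
  obtain ⟨ha, hb⟩ := hcon
  push Not at ha hb
  obtain ⟨γ1, hγ1, h1⟩ := ha
  obtain ⟨γ2, hγ2, h2⟩ := hb
  have hU := h.rowU hγ1 ((ρ - γ) % p) (by
    intro ρ' hρ' heq
    apply h1
    have hr := h.gR ρ' hρ'
    have h3 : ρ' - γ1 ≡ ρ - γ [ZMOD p] := heq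
    have h4 : ρ' ≡ γ1 + (ρ - γ) [ZMOD p] := by
      have := (Int.ModEq.refl γ1).add h3
      simpa using this
    have h5 : ρ' % p = (γ1 + (ρ - γ)) % p := h4
    rw [Int.emod_eq_of_lt hr.1 hr.2] at h5
    rw [← h5]
    exact hρ')
  have hV := h.rowV hγ2 ((ρ + γ) % p) (by
    intro ρ' hρ' heq
    apply h2
    have hr := h.gR ρ' hρ'
    have h3 : ρ' + γ2 ≡ ρ + γ [ZMOD p] := heq
    have h4 : ρ' ≡ ρ + γ - γ2 [ZMOD p] := by
      have := h3.sub (Int.ModEq.refl γ2)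
      simpa using this
    have h5 : ρ' % p = (ρ + γ - γ2) % p := h4
    rw [Int.emod_eq_of_lt hr.1 hr.2] at h5
    rw [← h5]
    exact hρ')
  have hc := h.cost hγ hρ
  have hs := h.smallness
  omega

lemma nonempty (h : Per n p e S Γ P ZC ZR) : Γ.Nonempty ∧ P.Nonempty := by
  have hp := h.hp
  have h1 := h.half_le P ZR Prod.snd h.cR h.hR
  have h2 := h.half_le Γ ZC Prod.fst h.cC h.hC
  rw [← card_pos, ← card_pos]
  omega

lemma cardPG (h : Per n p e S Γ P ZC ZR) : P.card ≤ Γ.card := by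
  have h1 := h.cardP
  have h2 := h.half_le Γ ZC Prod.fst h.cC h.hC
  omega

/-- translations preserving `Γ` modulo `p` -/
def stab (Γ : Finset ℤ) (p : ℕ) : AddSubgroup ℤ where
  carrier := {t | ∀ x : ℤ, x % p ∈ Γ ↔ (x + t) % p ∈ Γ}
  zero_mem' := by intro x; simp
  add_mem' := by
    intro a b ha hb x
    rw [ha x, hb (x + a), add_assoc]
  neg_mem' := by
    intro a ha x
    have := ha (x + -a)
    rw [this]
    simp

lemma mem_stab (Γ : Finset ℤ) (p : ℕ) (t : ℤ) : t ∈ stab Γ p ↔ ∀ x : ℤ, x % p ∈ Γ ↔ (x + t) % p ∈ Γ := Iff.rfl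

/-- the sets are periodic modulo some `d ≤ 4` dividing `p` -/
lemma period (h : Per n p e S Γ P ZC ZR) : ∃ d : ℕ, 0 < d ∧ d ≤ 4 ∧ d ∣ p ∧
    (∀ x y : ℤ, x % d = y % d → (x % p ∈ Γ ↔ y % p ∈ Γ)) ∧ (∀ x y : ℤ, x % d = y % d → (x % p ∈ P ↔ y % p ∈ P)) := by
  classical
  have hp := h.hp
  have hp' : (0 : ℤ) < p := by exact_mod_cast hp
  obtain ⟨a, ha⟩ := Int.subgroup_cyclic (stab Γ p)
  have hmem : ∀ t : ℤ, t ∈ stab Γ p ↔ a ∣ t := by
    intro t
    rw [ha, AddSubgroup.mem_closure_singleton]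
    constructor
    · rintro ⟨m, hm⟩
      exact ⟨m, by rw [← hm]; simp [mul_comm]⟩
    · rintro ⟨m, hm⟩
      exact ⟨m, by rw [hm]; simp [mul_comm]⟩
  have hpm : (p : ℤ) ∈ stab Γ p := by
    rw [mem_stab]
    intro x
    simp
  have hap : a ∣ (p : ℤ) := (hmem _).1 hpm
  set d := a.natAbs with hd
  have hdp : d ∣ p := by
    have := Int.natAbs_dvd_natAbs.2 hap
    simpa using this
  have hd0 : 0 < d := Nat.pos_of_dvd_of_pos hdp hp
  have hmem' : ∀ t : ℤ, t ∈ stab Γ p ↔ (d : ℤ) ∣ t := by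
    intro t
    rw [hmem, hd]
    simp
  obtain ⟨⟨γ0, hγ0⟩, ⟨ρ0, hρ0⟩⟩ := h.nonempty
  have hbA := bijA hp' Γ P h.gC h.cardPG
  have hbB := bijB hp' Γ P h.gC h.cardPG
  obtain ⟨k, hk⟩ := hdp
  -- the two halves of `P`
  set PA := P.filter (fun ρ => ∀ x ∈ Γ, (x + (ρ - γ0)) % (p : ℤ) ∈ P) with hPA
  set PB := P.filter (fun ρ => ∀ x ∈ Γ, (ρ + γ0 - x) % (p : ℤ) ∈ P) with hPB
  have hcov : P ⊆ PA ∪ PB := by
    intro ρ hρ
    rw [mem_union, hPA, hPB, mem_filter, mem_filter]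
    rcases h.disj hγ0 hρ with h1 | h1
    · exact Or.inl ⟨hρ, h1⟩
    · exact Or.inr ⟨hρ, h1⟩
  have dA : ∀ ρ ∈ PA, ∀ ρ' ∈ PA, (d : ℤ) ∣ ρ - ρ' := by
    intro ρ hρ ρ' hρ'
    rw [hPA, mem_filter] at hρ hρ'
    rw [← hmem', mem_stab]
    intro x
    rw [hbA (ρ - γ0) hρ.2 x, hbA (ρ' - γ0) hρ'.2 (x + (ρ - ρ'))]
    have : x + (ρ - ρ') + (ρ' - γ0) = x + (ρ - γ0) := by ring
    rw [this]
  have dB : ∀ ρ ∈ PB, ∀ ρ' ∈ PB, (d : ℤ) ∣ ρ - ρ' := by
    intro ρ hρ ρ' hρ'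
    rw [hPB, mem_filter] at hρ hρ'
    rw [← hmem', mem_stab]
    intro x
    rw [hbB (ρ' + γ0) hρ'.2 x, hbB (ρ + γ0) hρ.2 (x + (ρ - ρ'))]
    have : ρ + γ0 - (x + (ρ - ρ')) = ρ' + γ0 - x := by ring
    rw [this]
  have cX : ∀ X : Finset ℤ, X ⊆ P → (∀ ρ ∈ X, ∀ ρ' ∈ X, (d : ℤ) ∣ ρ - ρ') → X.card ≤ k := by
    intro X hX hX'
    rcases X.eq_empty_or_nonempty with h0 | ⟨ρ1, hρ1⟩
    · rw [h0]; simp
    · apply cls_exact d k hd0 (ρ1 % d) X
      intro x hx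
      have h1 := h.gR x (hX hx)
      refine ⟨h1.1, by rw [← hk]; exact h1.2, ?_⟩
      exact Int.modEq_iff_dvd.2 (hX' ρ1 hρ1 x hx)
  have hc := (card_le_card hcov).trans (card_union_le _ _)
  have c1 := cX PA (filter_subset _ _) dA
  have c2 := cX PB (filter_subset _ _) dB
  have c3 := h.cardP
  have hd4 : d ≤ 4 := by
    by_contra hcon
    push Not at hcon
    have hk0 : 0 < k := by
      rcases Nat.eq_zero_or_pos k with h0 | h0
      · rw [h0] at hk; omega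
      · exact h0
    have : 5 * k ≤ p := by rw [hk]; exact Nat.mul_le_mul_right _ hcon
    omega
  have perG : ∀ x y : ℤ, x % d = y % d → (x % p ∈ Γ ↔ y % p ∈ Γ) := by
    intro x y hxy
    have h1 : (d : ℤ) ∣ y - x := Int.ModEq.dvd hxy
    have h2 := ((mem_stab Γ p _).1 ((hmem' _).2 h1)) x
    rw [h2]
    have : x + (y - x) = y := by ring
    rw [this]
  refine ⟨d, hd0, hd4, ⟨k, hk⟩, perG, ?_⟩
  intro x y hxy
  rcases h.disj hγ0 hρ0 with h1 | h1
  · have h2 := hbA (ρ0 - γ0) h1 (x - (ρ0 - γ0))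
    have h3 := hbA (ρ0 - γ0) h1 (y - (ρ0 - γ0))
    rw [sub_add_cancel] at h2 h3
    rw [← h2, ← h3]
    apply perG
    exact Int.ModEq.sub_right _ hxy
  · have h2 := hbB (ρ0 + γ0) h1 (ρ0 + γ0 - x)
    have h3 := hbB (ρ0 + γ0) h1 (ρ0 + γ0 - y)
    rw [sub_sub_cancel] at h2 h3
    rw [← h2, ← h3]
    apply perG
    exact Int.ModEq.sub_left _ hxy

end Per

end Pool.Agent.H642R3.QS
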