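import Pool.Agent.H642R3.QS.Per4

set_option autoImplicit false

namespace Pool.Agent.H642R3.QS

open Finset Pool.Agent.H642R3.Q

namespace Per

variable {n p e : ℕ} {S : Finset (ℤ × ℤ)} {Γ P ZC ZR : Finset ℤ}

/-- reduction to a divisor of the modulus -/
lemma reduce (h : Per n p e S Γ P ZC ZR) (d : ℕ) (hd0 : 0 < d) (hdp : d ∣ p)
    (hG : ∀ x y : ℤ, x % d = y % d → (x % p ∈ Γ ↔ y % p ∈ Γ))
    (hP : ∀ x y : ℤ, x % d = y % d → (x % p ∈ P ↔ y % p ∈ P)) :
    Per n d e S ((Ico (0 : ℤ) d).filter (fun x => x % p ∈ Γ)) ((Ico (0 : ℤ) d).filter (fun x => x % p ∈ P)) ZC ZR := by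
  classical
  have hd' : (0 : ℤ) < d := by exact_mod_cast hd0
  have hdle : d ≤ p := Nat.le_of_dvd h.hp hdp
  refine ⟨hd0, h.bd, h.dom, h.sm, h.cC, h.cR, ?_, ?_, ?_, ?_, ?_⟩
  · intro x hx
    rw [mem_filter, mem_Ico] at hx
    exact hx.1
  · intro x hx
    rw [mem_filter, mem_Ico] at hx
    exact hx.1
  · intro x h0 h1 h2
    rw [← h.hC x h0 h1 h2, mem_filter, mem_Ico]
    rw [hG (x % d) x (Int.emod_emod x d)]
    exact ⟨fun h => h.2, fun h => ⟨⟨Int.emod_nonneg x hd'.ne', Int.emod_lt_of_pos x hd'⟩, h⟩⟩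
  · intro x h0 h1 h2
    rw [← h.hR x h0 h1 h2, mem_filter, mem_Ico]
    rw [hP (x % d) x (Int.emod_emod x d)]
    exact ⟨fun h => h.2, fun h => ⟨⟨Int.emod_nonneg x hd'.ne', Int.emod_lt_of_pos x hd'⟩, h⟩⟩
  · refine le_trans ?_ h.big
    have : 40 * d * (e + 1) ≤ 40 * p * (e + 1) := by nlinarith
    exact Nat.mul_le_mul this hdle

/-- if the class set of the columns is one parity class, almost all members are in the columns of the other -/
lemma parity (h : Per n p e S Γ P ZC ZR) (g : ℤ) (hg : g = 0 ∨ g = 1)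
    (hG : ∀ x : ℤ, x % p ∈ Γ ↔ x % 2 = g) :
    (S.filter (fun q => ¬ q.1 % 2 = 1 - g)).card ≤ 3 * e + 2 := by
  classical
  have h1 : ((Ico (0 : ℤ) (0 + n)).filter (fun x => x % ((2 : ℕ) : ℤ) = 1 - g)).card ≤
      e + (S.filter (fun q => q.1 % 2 = 1 - g)).card := by
    have hsub : (Ico (0 : ℤ) (0 + n)).filter (fun x => x % ((2 : ℕ) : ℤ) = 1 - g) ⊆
        ZC ∪ (S.filter (fun q => q.1 % 2 = 1 - g)).image Prod.fst := by
      intro x hx
      rw [mem_filter, mem_Ico] at hx
      rw [mem_union]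
      by_cases hz : x ∈ ZC
      · exact Or.inl hz
      · right
        have h2 := h.hC x hx.1.1 (by linarith [hx.1.2]) hz
        have h3 := hx.2
        push_cast at h3
        have h4 : ¬ (∀ q ∈ S, q.1 ≠ x) := by
          rw [← h2, hG]
          omega
        push Not at h4
        obtain ⟨q, hq, hqx⟩ := h4
        exact mem_image.2 ⟨q, mem_filter.2 ⟨hq, by rw [hqx]; exact h3⟩, hqx⟩
    have h5 := (card_le_card hsub).trans (card_union_le _ _)
    have h6 : ((S.filter (fun q => q.1 % 2 = 1 - g)).image Prod.fst).card ≤ _ := card_image_le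
    have := h.cC
    omega
  have h2 := cls_lower 0 n 2 (by norm_num) (1 - g) (by omega) (by push_cast; omega)
  have h3 := card_filter_add_card_filter_not (s := S) (fun q => q.1 % 2 = 1 - g)
  have h4 := h.sm
  omega

lemma cardU_le (S : Finset (ℤ × ℤ)) (μ : ℤ) : (Uc S 4 μ).card ≤ (S.filter (fun q => (q.2 - q.1) % 4 = μ)).card := by
  classical
  have : Uc S 4 μ ⊆ (S.filter (fun q => (q.2 - q.1) % 4 = μ)).image (fun q => q.2 - q.1) := by
    intro x hx
    unfold Uc at hx
    rw [mem_filter, mem_image] at hx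
    obtain ⟨⟨q, hq, rfl⟩, h2⟩ := hx
    exact mem_image.2 ⟨q, mem_filter.2 ⟨hq, by exact_mod_cast h2⟩, rfl⟩
  exact (card_le_card this).trans card_image_le

lemma cardV_le (S : Finset (ℤ × ℤ)) (μ : ℤ) : (Vc S 4 μ).card ≤ (S.filter (fun q => (q.1 + q.2) % 4 = μ)).card := by
  classical
  have : Vc S 4 μ ⊆ (S.filter (fun q => (q.1 + q.2) % 4 = μ)).image (fun q => q.1 + q.2) := by
    intro x hx
    unfold Vc at hx
    rw [mem_filter, mem_image] at hx
    obtain ⟨⟨q, hq, rfl⟩, h2⟩ := hx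
    exact mem_image.2 ⟨q, mem_filter.2 ⟨hq, by exact_mod_cast h2⟩, rfl⟩
  exact (card_le_card this).trans card_image_le

/-- modulus four: two adjacent classes of columns and two adjacent classes of rows -/
lemma four (h : Per n 4 e S Γ P ZC ZR) (g r : ℤ) (hg : g % 4 ∈ Γ) (hg1 : (g + 1) % 4 ∈ Γ)
    (hr : r % 4 ∈ P) (hr1 : (r + 1) % 4 ∈ P) (hP : ∀ x ∈ P, x = r % 4 ∨ x = (r + 1) % 4) : False := by
  classical
  have hs := h.smallness
  have e4 : ((4 : ℕ) : ℤ) = 4 := rfl
  -- the class of sums `r + g` is small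
  have hV0 := h.rowV hg1 ((r + g) % 4) (by
    intro x hx
    rw [e4]
    rcases hP x hx with h1 | h1 <;> rw [h1] <;> omega)
  have hU0 := h.rowU hg1 ((r + 1 - g) % 4) (by
    intro x hx
    rw [e4]
    rcases hP x hx with h1 | h1 <;> rw [h1] <;> omega)
  have c1 := h.cost hg hr
  have c2 := h.cost hg hr1
  rw [e4] at c1 c2
  have i1 : (r % 4 - g % 4) % 4 = (r - g) % 4 := by omega
  have i2 : (r % 4 + g % 4) % 4 = (r + g) % 4 := by omega
  have i3 : ((r + 1) % 4 - g % 4) % 4 = (r + 1 - g) % 4 := by omega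
  have i4 : ((r + 1) % 4 + g % 4) % 4 = (r + 1 + g) % 4 := by omega
  rw [i1, i2] at c1
  rw [i3, i4] at c2
  have u1 := cardU_le S ((r - g) % 4)
  have v1 := cardV_le S ((r + 1 + g) % 4)
  have hdis : (S.filter (fun q => (q.2 - q.1) % 4 = (r - g) % 4)).card +
      (S.filter (fun q => (q.1 + q.2) % 4 = (r + 1 + g) % 4)).card ≤ S.card := by
    rw [← card_union_of_disjoint]
    · apply card_le_card
      intro q hq
      rw [mem_union, mem_filter, mem_filter] at hq
      rcases hq with hq | hq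
      · exact hq.1
      · exact hq.1
    · rw [disjoint_left]
      intro q hq1 hq2
      rw [mem_filter] at hq1 hq2
      have a1 := hq1.2
      have a2 := hq2.2
      omega
  have hc := h.cardP
  have hP2 : P.card = 2 := by omega
  rw [hP2] at hs hV0 hU0
  have hsm := h.sm
  omega

lemma sub4 (h : Per n 4 e S Γ P ZC ZR) : ∀ x ∈ P, x = 0 ∨ x = 1 ∨ x = 2 ∨ x = 3 := by
  intro x hx
  have := h.gR x hx
  push_cast at this
  omega

lemma sub4' (h : Per n 4 e S Γ P ZC ZR) : ∀ x ∈ Γ, x = 0 ∨ x = 1 ∨ x = 2 ∨ x = 3 := by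
  intro x hx
  have := h.gC x hx
  push_cast at this
  omega

/-- modulus four: the class set of the columns is a parity class -/
lemma four_parity (h : Per n 4 e S Γ P ZC ZR) : ∃ g : ℤ, (g = 0 ∨ g = 1) ∧ ∀ x : ℤ, x % 4 ∈ Γ ↔ x % 2 = g := by
  classical
  have hcP : P.card = 2 := by have := h.cardP; omega
  have e4 : ((4 : ℕ) : ℤ) = 4 := rfl
  obtain ⟨⟨γ0, hγ0⟩, ⟨ρ0, hρ0⟩⟩ := h.nonempty
  have hcG : Γ.card ≤ 2 := by
    have hp4 : (0 : ℤ) < 4 := by norm_num
    rw [← hcP]
    rcases h.disj hγ0 hρ0 with h1 | h1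
    · rw [e4] at h1
      apply card_le_card_of_injOn (fun x => (x + (ρ0 - γ0)) % 4) h1
      intro x hx y hy hxy
      have a1 := h.gC x hx
      have a2 := h.gC y hy
      exact emod_inj _ a1.1 a1.2 a2.1 a2.2 hxy
    · rw [e4] at h1
      apply card_le_card_of_injOn (fun x => (ρ0 + γ0 - x) % 4) h1
      intro x hx y hy hxy
      have a1 := h.sub4' x hx
      have a2 := h.sub4' y hy
      have hxy' : (ρ0 + γ0 - x) % 4 = (ρ0 + γ0 - y) % 4 := hxy
      omega
  have hcG2 : Γ.card = 2 := by have := h.cardPG; omega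
  obtain ⟨a, b, hab, hGab⟩ := card_eq_two.1 hcG2
  obtain ⟨r, s, hrs, hPrs⟩ := card_eq_two.1 hcP
  have ha : a ∈ Γ := by rw [hGab]; simp
  have hb : b ∈ Γ := by rw [hGab]; simp
  have hr : r ∈ P := by rw [hPrs]; simp
  have hs : s ∈ P := by rw [hPrs]; simp
  have ha4 := h.sub4' a ha
  have hb4 := h.sub4' b hb
  have hr4 := h.sub4 r hr
  have hs4 := h.sub4 s hs
  by_cases hpar : a % 2 = b % 2
  · refine ⟨a % 2, by omega, ?_⟩
    intro x
    rw [hGab, mem_insert, mem_singleton]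
    omega
  · exfalso
    have hadj : r % 2 ≠ s % 2 := by
      intro hrs2
      rcases h.disj ha hr with h1 | h1
      · have k1 := h1 b hb
        rw [hPrs, mem_insert, mem_singleton, e4] at k1
        omega
      · have k1 := h1 b hb
        rw [hPrs, mem_insert, mem_singleton, e4] at k1
        omega
    -- `Γ = {g, g + 1}` and `P = {r', r' + 1}` modulo four
    obtain ⟨g, hg, hg1⟩ : ∃ g : ℤ, g % 4 ∈ Γ ∧ (g + 1) % 4 ∈ Γ := by
      by_cases hh : (a + 1) % 4 = b
      · exact ⟨a, by rw [show a % 4 = a by omega]; exact ha, by rw [hh]; exact hb⟩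
      · exact ⟨b, by rw [show b % 4 = b by omega]; exact hb, by rw [show (b + 1) % 4 = a by omega]; exact ha⟩
    by_cases hh : (r + 1) % 4 = s
    · exact h.four g r hg hg1 (by rw [show r % 4 = r by omega]; exact hr) (by rw [hh]; exact hs) (by
        intro x hx
        rw [hPrs, mem_insert, mem_singleton] at hx
        omega)
    · exact h.four g s hg hg1 (by rw [show s % 4 = s by omega]; exact hs)
        (by rw [show (s + 1) % 4 = r by omega]; exact hr) (by
        intro x hx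
        rw [hPrs, mem_insert, mem_singleton] at hx
        omega)

/-- the class set of the columns is always a parity class -/
lemma column_parity (h : Per n p e S Γ P ZC ZR) : ∃ g : ℤ, (g = 0 ∨ g = 1) ∧ ∀ x : ℤ, x % p ∈ Γ ↔ x % 2 = g := by
  classical
  obtain ⟨d, hd0, hd4, hdp, hG, hP⟩ := h.period
  have h' := h.reduce d hd0 hdp hG hP
  have hc := h'.cardP
  have hd24 : d = 2 ∨ d = 4 := by omega
  have key : ∀ x : ℤ, x % p ∈ Γ ↔ x % (d : ℤ) ∈ (Ico (0 : ℤ) (d : ℤ)).filter (fun x : ℤ => x % (p : ℤ) ∈ Γ) := by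
    intro x
    have hd' : (0 : ℤ) < d := by exact_mod_cast hd0
    rw [mem_filter, mem_Ico, hG (x % d) x (Int.emod_emod x d)]
    exact ⟨fun h => ⟨⟨Int.emod_nonneg x hd'.ne', Int.emod_lt_of_pos x hd'⟩, h⟩, fun h => h.2⟩
  rcases hd24 with rfl | rfl
  · obtain ⟨⟨γ0, hγ0⟩, ⟨ρ0, hρ0⟩⟩ := h'.nonempty
    have hcP : ((Ico (0 : ℤ) ((2 : ℕ) : ℤ)).filter (fun x : ℤ => x % (p : ℤ) ∈ P)).card = 1 := by omega
    have a0 := h'.gC γ0 hγ0
    push_cast at a0
    refine ⟨γ0, by omega, ?_⟩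
    intro x
    rw [key]
    constructor
    · intro hx
      by_contra hne
      -- both classes would be in the column set
      have hx0 := h'.gC _ hx
      push_cast at hx0 hx
      obtain ⟨y, hy⟩ := card_eq_one.1 hcP
      have hyP : ∀ z ∈ (Ico (0 : ℤ) ((2 : ℕ) : ℤ)).filter (fun x : ℤ => x % (p : ℤ) ∈ P), z = y := by
        intro z hz
        rw [hy, mem_singleton] at hz
        exact hz
      rcases h'.disj hγ0 hρ0 with h1 | h1
      · have k1 := hyP _ (h1 γ0 hγ0)
        have k2 := hyP _ (h1 (x % 2) hx)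
        push_cast at k1 k2
        omega
      · have k1 := hyP _ (h1 γ0 hγ0)
        have k2 := hyP _ (h1 (x % 2) hx)
        push_cast at k1 k2
        omega
    · intro hx
      push_cast
      rw [hx]
      exact_mod_cast hγ0
  · obtain ⟨g, hg, hgx⟩ := h'.four_parity
    refine ⟨g, hg, ?_⟩
    intro x
    rw [key, ← hgx x]
    exact Iff.rfl

end Per

end Pool.Agent.H642R3.QS
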