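import Pool.Agent.H642R3.QS.Board

set_option autoImplicit false

namespace Pool.Agent.H642R3.QS

open Finset

/-- counting the lines through the squares of a row -/
lemma row_count (X U V : Finset ℤ) (y : ℤ) (hx : ∀ x ∈ X, 0 ≤ x)
    (h : ∀ x ∈ X, y - x ∈ U ∨ x + y ∈ V) :
    X.card + (X.filter (fun x => y - x ∈ U ∧ x + y ∈ V)).card ≤
      (U.filter (fun w => w ≤ y)).card + (V.filter (fun v => y ≤ v)).card := by
  classical
  have hA : (X.filter (fun x => y - x ∈ U)).card ≤ (U.filter (fun w => w ≤ y)).card := by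
    apply card_le_card_of_injOn (fun x => y - x)
    · intro x hx'
      rw [Finset.mem_coe, mem_filter] at hx'
      rw [Finset.mem_coe, mem_filter]
      have := hx x hx'.1
      exact ⟨hx'.2, by linarith⟩
    · intro a _ b _ hab
      have : y - a = y - b := hab
      linarith
  have hB : (X.filter (fun x => x + y ∈ V)).card ≤ (V.filter (fun v => y ≤ v)).card := by
    apply card_le_card_of_injOn (fun x => x + y)
    · intro x hx'
      rw [Finset.mem_coe, mem_filter] at hx'
      rw [Finset.mem_coe, mem_filter]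
      have := hx x hx'.1
      exact ⟨hx'.2, by linarith⟩
    · intro a _ b _ hab
      have : a + y = b + y := hab
      linarith
  have hU : X = X.filter (fun x => y - x ∈ U) ∪ X.filter (fun x => x + y ∈ V) := by
    ext x
    rw [mem_union, mem_filter, mem_filter]
    constructor
    · intro hx'
      rcases h x hx' with h1 | h1
      · exact Or.inl ⟨hx', h1⟩
      · exact Or.inr ⟨hx', h1⟩
    · rintro (h1 | h1)
      · exact h1.1
      · exact h1.1
  have hI : X.filter (fun x => y - x ∈ U ∧ x + y ∈ V) =
      X.filter (fun x => y - x ∈ U) ∩ X.filter (fun x => x + y ∈ V) := by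
    ext x
    rw [mem_inter, mem_filter, mem_filter, mem_filter]
    tauto
  have h1 := card_union_add_card_inter (X.filter (fun x => y - x ∈ U)) (X.filter (fun x => x + y ∈ V))
  rw [← hU, ← hI] at h1
  omega

/-- three empty rows of the same parity are expensive -/
lemma three_rows (X U V : Finset ℤ) (y1 y3 y2 m : ℤ) (h13 : y1 + m ≤ y3) (h32 : y3 + m ≤ y2)
    (hx : ∀ x ∈ X, 0 ≤ x)
    (h1 : ∀ x ∈ X, y1 - x ∈ U ∨ x + y1 ∈ V)
    (h3 : ∀ x ∈ X, y3 - x ∈ U ∨ x + y3 ∈ V)
    (h2 : ∀ x ∈ X, y2 - x ∈ U ∨ x + y2 ∈ V) :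
    (X.filter (fun x => y3 - y1 ≤ x ∧ x < y3 - y1 + m ∧ x - (y3 - y1) ∈ X)).card + 2 * X.card ≤
      2 * U.card + 2 * V.card := by
  classical
  have r1 := row_count X U V y1 hx h1
  have r2 := row_count X U V y2 hx h2
  set Y := X.filter (fun x => y3 - y1 ≤ x ∧ x < y3 - y1 + m ∧ x - (y3 - y1) ∈ X) with hY
  have hsub : Y ⊆ Y.filter (fun x => x + y1 ∈ V.filter (fun v => v < y2)) ∪
      (Y.filter (fun x => y3 - (x - (y3 - y1)) ∈ U.filter (fun w => y1 < w)) ∪
        X.filter (fun x => y1 - x ∈ U ∧ x + y1 ∈ V)) := by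
    intro x hxY
    have hxY' := hxY
    rw [hY, mem_filter] at hxY'
    obtain ⟨hX, a1, a2, a3⟩ := hxY'
    by_cases hu : y1 - x ∈ U
    · rcases h3 _ a3 with b | b
      · refine mem_union_right _ (mem_union_left _ (mem_filter.2 ⟨hxY, mem_filter.2 ⟨b, by linarith⟩⟩))
      · have e : x - (y3 - y1) + y3 = x + y1 := by ring
        rw [e] at b
        exact mem_union_right _ (mem_union_right _ (mem_filter.2 ⟨hX, hu, b⟩))
    · rcases h1 x hX with b | b
      · exact absurd b hu
      · exact mem_union_left _ (mem_filter.2 ⟨hxY, mem_filter.2 ⟨b, by linarith⟩⟩)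
  have c1 : (Y.filter (fun x => x + y1 ∈ V.filter (fun v => v < y2))).card ≤ (V.filter (fun v => v < y2)).card := by
    apply card_le_card_of_injOn (fun x => x + y1)
    · intro x hx'
      rw [Finset.mem_coe, mem_filter] at hx'
      exact hx'.2
    · intro a _ b _ hab
      have : a + y1 = b + y1 := hab
      linarith
  have c2 : (Y.filter (fun x => y3 - (x - (y3 - y1)) ∈ U.filter (fun w => y1 < w))).card ≤
      (U.filter (fun w => y1 < w)).card := by
    apply card_le_card_of_injOn (fun x => y3 - (x - (y3 - y1)))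
    · intro x hx'
      rw [Finset.mem_coe, mem_filter] at hx'
      exact hx'.2
    · intro a _ b _ hab
      have : y3 - (a - (y3 - y1)) = y3 - (b - (y3 - y1)) := hab
      linarith
  have c0 := (card_le_card hsub).trans (card_union_le _ _)
  have c3 := card_union_le (Y.filter (fun x => y3 - (x - (y3 - y1)) ∈ U.filter (fun w => y1 < w)))
    (X.filter (fun x => y1 - x ∈ U ∧ x + y1 ∈ V))
  have d1 : (U.filter (fun w => w ≤ y1)).card + (U.filter (fun w => y1 < w)).card = U.card := by
    rw [← card_filter_add_card_filter_not (s := U) (fun w => w ≤ y1)]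
    congr 2
    apply filter_congr
    intro w _
    exact not_le.symm
  have d2 : (V.filter (fun v => y2 ≤ v)).card + (V.filter (fun v => v < y2)).card = V.card := by
    rw [← card_filter_add_card_filter_not (s := V) (fun v => y2 ≤ v)]
    congr 2
    apply filter_congr
    intro w _
    exact not_le.symm
  have d3 : (V.filter (fun v => y1 ≤ v)).card ≤ V.card := card_filter_le _ _
  have d4 : (U.filter (fun v => v ≤ y2)).card ≤ U.card := card_filter_le _ _
  omega

/-- number of integers of given parity in an interval -/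
lemma parity_card (a : ℤ) (m : ℕ) (α : ℤ) (hα : α = 0 ∨ α = 1) :
    m ≤ 2 * ((Ico a (a + m)).filter (fun x => x % 2 = α)).card + 1 := by
  classical
  induction m using Nat.twoStepInduction with
  | zero => omega
  | one => omega
  | more m ih _ =>
    have h1 : (Ico a (a + (m : ℤ))).filter (fun x => x % 2 = α) ⊆ (Ico a (a + ((m + 2 : ℕ) : ℤ))).filter (fun x => x % 2 = α) := by
      apply filter_subset_filter
      apply Ico_subset_Ico le_rfl
      push_cast; linarith
    obtain ⟨z, hz1, hz2, hz3⟩ : ∃ z : ℤ, a + m ≤ z ∧ z < a + m + 2 ∧ z % 2 = α := by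
      by_cases h : (a + m) % 2 = α
      · exact ⟨a + m, le_rfl, by linarith, h⟩
      · exact ⟨a + m + 1, by linarith, by linarith, by omega⟩
    have h2 : insert z ((Ico a (a + (m : ℤ))).filter (fun x => x % 2 = α)) ⊆
        (Ico a (a + ((m + 2 : ℕ) : ℤ))).filter (fun x => x % 2 = α) := by
      rw [insert_subset_iff]
      refine ⟨?_, h1⟩
      rw [mem_filter, mem_Ico]
      refine ⟨⟨by omega, by push_cast; omega⟩, hz3⟩
    have h3 := card_le_card h2
    rw [card_insert_of_notMem (by rw [mem_filter, mem_Ico]; omega)] at h3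
    omega

end Pool.Agent.H642R3.QS
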